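import Mathlib

set_option autoImplicit false

namespace Pool.Agent.TH397.EX

attribute [local instance] Ultrafilter.addSemigroup Ultrafilter.semigroup

/-- `x` agrees with `ζ` to length `n`: the colour of `2^b x` is `ζ b` for all `b < n`. -/
def Close {r : ℕ} (c : ℕ → Fin r) (x : ℕ) (ζ : ℕ → Fin r) (n : ℕ) : Prop :=
  ∀ b < n, c (2 ^ b * x) = ζ b

/-- `S` contains arbitrarily long finite sum-sets with arbitrarily large generators. -/
def Rich (S : Set ℕ) : Prop :=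
  ∀ (ι : Type) [Fintype ι] (R : ℕ), ∃ y : ι → ℕ, (∀ i, R ≤ y i) ∧
    ∀ s : Finset ι, s.Nonempty → ∑ i ∈ s, y i ∈ S

lemma exists_idem :
    ∃ U : Ultrafilter ℕ, U + U = U ∧ ∀ R : ℕ, ∀ᶠ m in (U : Filter ℕ), R ≤ m := by
  obtain ⟨U, hU, hm⟩ := Hindman.exists_idempotent_ultrafilter_le_FS (Stream'.const 1 : Stream' ℕ)
  refine ⟨U, hU, ?_⟩
  have h1 : ∀ᶠ m in (U : Filter ℕ), 1 ≤ m := by
    refine hm.mono ?_
    intro m hm
    have key : ∀ (a : Stream' ℕ) (m : ℕ), Hindman.FS a m → (∀ i, 1 ≤ a.get i) → 1 ≤ m := by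
      intro a m h
      induction h with
      | head' a => intro h; exact h 0
      | tail' a m h ih => intro h; exact ih (fun i => h (i + 1))
      | cons' a m h ih => intro h; have := ih (fun i => h (i + 1)); omega
    exact key _ m hm (fun i => by simp [Stream'.get_const])
  intro R
  induction R with
  | zero => exact Filter.Eventually.of_forall (fun m => Nat.zero_le m)
  | succ R ih =>
    have : ∀ᶠ m in ((U + U : Ultrafilter ℕ) : Filter ℕ), R + 1 ≤ m := by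
      rw [Ultrafilter.eventually_add]
      filter_upwards [ih] with m hm
      filter_upwards [h1] with m' hm'
      omega
    rwa [hU] at this

lemma rich_of_mem {U : Ultrafilter ℕ} (hU : U + U = U)
    (hR : ∀ R : ℕ, ∀ᶠ m in (U : Filter ℕ), R ≤ m) {S : Set ℕ} (hS : S ∈ U) : Rich S := by
  intro ι _ R
  have h2 : S ∩ {m | R ≤ m} ∈ U := Filter.inter_mem hS (hR R)
  obtain ⟨a, ha⟩ := Hindman.exists_FS_of_large U hU _ h2
  classical
  let e := Fintype.equivFin ι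
  refine ⟨fun i => a.get (e i), fun i => (ha (Hindman.FS.singleton a (e i))).2, ?_⟩
  intro s hs
  have h3 : ∑ i ∈ s, a.get (e i : ℕ) = ∑ j ∈ s.image (fun i => (e i : ℕ)), a.get j := by
    rw [Finset.sum_image]
    intro x _ y _ hxy
    exact e.injective (Fin.ext hxy)
  rw [h3]
  exact (ha (Hindman.FS.finsetSum a _ (hs.image _))).1

lemma exists_limit {r : ℕ} (c : ℕ → Fin r) (U : Ultrafilter ℕ) :
    ∃ ζ : ℕ → Fin r, ∀ n, {x | Close c x ζ n} ∈ U := by
  have h1 : ∀ b : ℕ, ∃ v : Fin r, ∀ᶠ x in (U : Filter ℕ), c (2 ^ b * x) = v := by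
    intro b
    have : ∀ᶠ x in (U : Filter ℕ), ∃ v ∈ (Set.univ : Set (Fin r)), c (2 ^ b * x) = v :=
      Filter.Eventually.of_forall (fun x => ⟨_, trivial, rfl⟩)
    rw [Ultrafilter.eventually_exists_mem_iff Set.finite_univ] at this
    obtain ⟨v, _, hv⟩ := this
    exact ⟨v, hv⟩
  choose ζ hζ using h1
  refine ⟨ζ, fun n => ?_⟩
  induction n with
  | zero => 
    refine Filter.mem_of_superset Filter.univ_mem ?_
    intro x _ b hb
    omega
  | succ n ih =>
    filter_upwards [ih, hζ n] with x hx hx' b hb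
    rcases Nat.lt_succ_iff_lt_or_eq.mp hb with h | h
    · exact hx b h
    · subst h; exact hx'

/-- The limit colourings. -/
def Y0 {r : ℕ} (c : ℕ → Fin r) : Set (ℕ → Fin r) := {ζ | ∀ n, Rich {x | Close c x ζ n}}

lemma Rich.mono {S T : Set ℕ} (h : S ⊆ T) (hS : Rich S) : Rich T := by
  intro ι _ R
  obtain ⟨y, h1, h2⟩ := hS ι R
  exact ⟨y, h1, fun s hs => h (h2 s hs)⟩

lemma Y0_nonempty {r : ℕ} (c : ℕ → Fin r) : (Y0 c).Nonempty := by
  obtain ⟨U, hU, hR⟩ := exists_idem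
  obtain ⟨ζ, hζ⟩ := exists_limit c U
  exact ⟨ζ, fun n => rich_of_mem hU hR (hζ n)⟩

/-- The cylinder of length `n` around `ζ`. -/
def cyl {r : ℕ} (ζ : ℕ → Fin r) (n : ℕ) : Set (ℕ → Fin r) := {η | ∀ b < n, η b = ζ b}

lemma isOpen_shift_cyl {r : ℕ} (ζ : ℕ → Fin r) (n t : ℕ) :
    IsOpen {η : ℕ → Fin r | ∀ b < n, η (t + b) = ζ b} := by
  have : {η : ℕ → Fin r | ∀ b < n, η (t + b) = ζ b}
      = ⋂ b ∈ Finset.range n, {η : ℕ → Fin r | η (t + b) = ζ b} := by
    ext η; simp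
  rw [this]
  refine isOpen_biInter_finset (fun b _ => ?_)
  exact (continuous_apply (A := fun _ : ℕ => Fin r) (t + b)).isOpen_preimage ({ζ b} : Set (Fin r)) (isOpen_discrete _)

lemma isOpen_cyl {r : ℕ} (ζ : ℕ → Fin r) (n : ℕ) : IsOpen (cyl ζ n) := by
  have := isOpen_shift_cyl ζ n 0
  simpa [cyl] using this

lemma close_congr {r : ℕ} {c : ℕ → Fin r} {x n : ℕ} {ζ η : ℕ → Fin r} (h : ∀ b < n, η b = ζ b)
    (hx : Close c x ζ n) : Close c x η n := by
  intro b hb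
  rw [h b hb]
  exact hx b hb

lemma Y0_closed {r : ℕ} (c : ℕ → Fin r) : IsClosed (Y0 c) := by
  rw [← isOpen_compl_iff, isOpen_iff_mem_nhds]
  intro ζ hζ
  simp only [Set.mem_compl_iff, Y0, Set.mem_ofPred_eq, not_forall] at hζ
  obtain ⟨n, hn⟩ := hζ
  refine Filter.mem_of_superset ((isOpen_cyl ζ n).mem_nhds (fun b _ => rfl)) ?_
  intro η hη hη2
  apply hn
  refine Rich.mono ?_ (hη2 n)
  intro x hx
  exact close_congr (fun b hb => (hη b hb).symm) hx

/-- The shift. -/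
def sh {r : ℕ} (t : ℕ) (ζ : ℕ → Fin r) : ℕ → Fin r := fun b => ζ (t + b)

lemma Y0_shift {r : ℕ} {c : ℕ → Fin r} {ζ : ℕ → Fin r} (h : ζ ∈ Y0 c) : sh 1 ζ ∈ Y0 c := by
  intro n ι _ R
  obtain ⟨y, h1, h2⟩ := h (n + 1) ι R
  refine ⟨fun i => 2 * y i, fun i => (h1 i).trans (Nat.le_mul_of_pos_left _ (by norm_num)), fun s hs => ?_⟩
  rw [← Finset.mul_sum]
  intro b hb
  have := h2 s hs (1 + b) (by omega)
  rw [← mul_assoc, ← pow_succ, add_comm b 1]
  exact this

lemma sh_zero {r : ℕ} (ζ : ℕ → Fin r) : sh 0 ζ = ζ := by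
  funext b
  simp [sh]

/-- closed, nonempty, shift invariant -/
structure Sys {r : ℕ} (c : ℕ → Fin r) (Y : Set (ℕ → Fin r)) : Prop where
  sub : Y ⊆ Y0 c
  closed : IsClosed Y
  ne : Y.Nonempty
  inv : ∀ ζ ∈ Y, sh 1 ζ ∈ Y

lemma Sys.inv' {r : ℕ} {c : ℕ → Fin r} {Y : Set (ℕ → Fin r)} (h : Sys c Y) (t : ℕ) :
    ∀ ζ ∈ Y, sh t ζ ∈ Y := by
  induction t with
  | zero => intro ζ hζ; rw [sh_zero]; exact hζ
  | succ t ih =>
    intro ζ hζ
    have := h.inv _ (ih ζ hζ)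
    convert this using 1
    funext b
    simp [sh, add_assoc]

lemma exists_minimal {r : ℕ} (c : ℕ → Fin r) :
    ∃ Y, Sys c Y ∧ ∀ Y', Sys c Y' → Y' ⊆ Y → Y' = Y := by
  obtain ⟨m, hm⟩ := zorn_superset {Y | Sys c Y} (by
    intro C hC hchain
    rcases C.eq_empty_or_nonempty with rfl | hne
    · exact ⟨Y0 c, ⟨subset_rfl, Y0_closed c, Y0_nonempty c, fun ζ h => Y0_shift h⟩, by simp⟩
    · refine ⟨⋂₀ C, ⟨?_, ?_, ?_, ?_⟩, fun s hs => Set.sInter_subset_of_mem hs⟩
      · obtain ⟨s, hs⟩ := hne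
        exact (Set.sInter_subset_of_mem hs).trans (hC hs).sub
      · exact isClosed_sInter (fun s hs => (hC hs).closed)
      · have : Nonempty C := hne.to_subtype
        rw [Set.sInter_eq_iInter]
        refine IsCompact.nonempty_iInter_of_directed_nonempty_isCompact_isClosed _ ?_ ?_ ?_ ?_
        · intro a b
          rcases hchain.total a.2 b.2 with h | h
          · exact ⟨a, subset_rfl, h⟩
          · exact ⟨b, h, subset_rfl⟩
        · exact fun s => (hC s.2).ne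
        · exact fun s => (hC s.2).closed.isCompact
        · exact fun s => (hC s.2).closed
      · intro ζ hζ s hs
        exact (hC hs).inv ζ (hζ s hs))
  refine ⟨m, hm.1, fun Y' h1 h2 => ?_⟩
  exact subset_antisymm h2 (hm.2 h1 h2)

lemma recurrent {r : ℕ} {c : ℕ → Fin r} {Y : Set (ℕ → Fin r)} (hY : Sys c Y)
    (hmin : ∀ Y', Sys c Y' → Y' ⊆ Y → Y' = Y) {ζ0 : ℕ → Fin r} (h0 : ζ0 ∈ Y) (n : ℕ) :
    ∃ d : ℕ, ∀ ζ ∈ Y, ∃ t < d, ∀ b < n, ζ (t + b) = ζ0 b := by
  have hcover : Y ⊆ ⋃ t : ℕ, {η : ℕ → Fin r | ∀ b < n, η (t + b) = ζ0 b} := by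
    intro ζ hζ
    -- orbit closure
    let O : Set (ℕ → Fin r) := closure (Set.range (fun t => sh t ζ))
    have hO : Sys c O := by
      have hsub : O ⊆ Y := by
        refine closure_minimal ?_ hY.closed
        rintro _ ⟨t, rfl⟩
        exact hY.inv' t ζ hζ
      refine ⟨hsub.trans hY.sub, isClosed_closure, ⟨ζ, subset_closure ⟨0, sh_zero ζ⟩⟩, ?_⟩
      intro η hη
      have hcont : Continuous (sh 1 : (ℕ → Fin r) → (ℕ → Fin r)) :=
        continuous_pi (fun b => continuous_apply (1 + b))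
      have h2 : sh 1 η ∈ closure ((sh 1) '' (Set.range (fun t => sh t ζ))) :=
        (image_closure_subset_closure_image hcont) ⟨η, hη, rfl⟩
      refine closure_mono ?_ h2
      rintro _ ⟨_, ⟨t, rfl⟩, rfl⟩
      refine ⟨t + 1, ?_⟩
      funext b
      simp [sh, add_assoc]
    have hOY : O = Y := hmin O hO (by
      refine closure_minimal ?_ hY.closed
      rintro _ ⟨t, rfl⟩
      exact hY.inv' t ζ hζ)
    have h3 : ζ0 ∈ O := by rw [hOY]; exact h0
    rw [mem_closure_iff] at h3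
    obtain ⟨_, h4, ⟨t, rfl⟩⟩ := h3 (cyl ζ0 n) (isOpen_cyl ζ0 n) (fun b _ => rfl)
    exact Set.mem_iUnion.mpr ⟨t, fun b hb => h4 b hb⟩
  obtain ⟨T, hT⟩ := hY.closed.isCompact.elim_finite_subcover _
    (fun t => isOpen_shift_cyl ζ0 n t) hcover
  refine ⟨T.sup id + 1, fun ζ hζ => ?_⟩
  have := hT hζ
  simp only [Set.mem_iUnion, Set.mem_ofPred_eq, exists_prop] at this
  obtain ⟨t, ht, h⟩ := this
  exact ⟨t, Nat.lt_succ_of_le (Finset.le_sup (f := id) ht), h⟩

/-- weights of the letters -/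
def wt {R : ℕ} : Option (Fin R) → ℕ
  | none => 0
  | some b => 2 ^ (b : ℕ)

lemma keyLemma {r : ℕ} {c : ℕ → Fin r} {Y : Set (ℕ → Fin r)} (hY : Sys c Y)
    (hmin : ∀ Y', Sys c Y' → Y' ⊆ Y → Y' = Y) {ζ : ℕ → Fin r} (h0 : ζ ∈ Y) {n : ℕ} (hn : 1 ≤ n)
    (R : ℕ) :
    ∃ ζ' ∈ Y, ∃ x, R ≤ x ∧ (∀ b < n, ζ' b = ζ b) ∧ Close c x ζ n ∧
      ∀ b < R, ζ' (2 ^ b * x) = ζ 0 := by
  obtain ⟨d, hd⟩ := recurrent hY hmin h0 n
  -- colouring of the positions
  have hpos : ∀ g : ℕ, ∃ t : Fin d, ∀ b < n, ζ (g + t + b) = ζ b := by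
    intro g
    obtain ⟨t, ht, h⟩ := hd _ (hY.inv' g ζ h0)
    refine ⟨⟨t, ht⟩, fun b hb => ?_⟩
    have := h b hb
    simpa [sh, add_assoc] using this
  choose t ht using hpos
  obtain ⟨ι, hι, hHJ⟩ := Combinatorics.Line.exists_mono_in_high_dimension (Option (Fin R)) (Fin d)
  obtain ⟨y, hy1, hy2⟩ := hY.sub h0 n ι R
  obtain ⟨l, v, hv⟩ := hHJ (fun w => t (∑ i, wt (w i) * y i))
  classical
  set act : Finset ι := Finset.univ.filter (fun i => l.idxFun i = none) with hact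
  set g : ℕ := ∑ i, wt (l none i) * y i with hg
  set x : ℕ := ∑ i ∈ act, y i with hx
  have hactne : act.Nonempty := by
    obtain ⟨i, hi⟩ := l.proper
    exact ⟨i, by simp [hact, hi]⟩
  have hline : ∀ b : Fin R, ∑ i, wt (l (some b) i) * y i = g + 2 ^ (b : ℕ) * x := by
    intro b
    have h1 : ∀ i, wt (l (some b) i) * y i
        = wt (l none i) * y i + (if i ∈ act then 2 ^ (b : ℕ) * y i else 0) := by
      intro i
      by_cases hi : l.idxFun i = none
      · have : i ∈ act := by simp [hact, hi]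
        rw [Combinatorics.Line.apply_none _ _ _ hi, Combinatorics.Line.apply_none _ _ _ hi]
        simp [wt, this]
      · have hna : i ∉ act := by simp [hact, hi]
        obtain ⟨a, ha⟩ := Option.ne_none_iff_exists'.mp hi
        rw [Combinatorics.Line.apply_some ha, Combinatorics.Line.apply_some ha]
        simp [hna]
    rw [Finset.sum_congr rfl (fun i _ => h1 i), Finset.sum_add_distrib, hg]
    congr 1
    rw [Finset.sum_ite_mem, Finset.univ_inter, hx, Finset.mul_sum]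
  refine ⟨sh (g + v) ζ, hY.inv' _ ζ h0, x, ?_, ?_, ?_, ?_⟩
  · obtain ⟨i, hi⟩ := hactne
    calc R ≤ y i := hy1 i
      _ ≤ x := Finset.single_le_sum (f := y) (fun _ _ => Nat.zero_le _) hi
  · intro b hb
    have h2 : t g = v := hv none
    have h1 := ht g b hb
    rw [h2] at h1
    exact h1
  · exact hy2 act hactne
  · intro b hb
    have h2 : t (g + 2 ^ b * x) = v := by
      have h3 := hv (some ⟨b, hb⟩)
      have h4 := hline ⟨b, hb⟩
      simp only at h3 h4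
      rw [← h4]
      exact h3
    have h1 := ht (g + 2 ^ b * x) 0 hn
    rw [h2] at h1
    show ζ (g + v + 2 ^ b * x) = ζ 0
    rw [← h1]
    congr 1
    ring

end Pool.Agent.TH397.EX
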