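import Mathlib

set_option autoImplicit false

namespace Pool.Agent.TH397.BR

open Finset

/-- `{a, a + d, …, a + (k - 1) d}`. -/
def ap (k a d : ℕ) : Finset ℕ := (range k).image (fun j => a + j * d)

/-- The set of all `k`-term arithmetic progressions contained in `[n] = {1, …, n}`. -/
def aps (k n : ℕ) : Finset (Finset ℕ) :=
  ((Icc 1 n ×ˢ Icc 1 n).image (fun p => ap k p.1 p.2)).filter (fun A => A ⊆ Icc 1 n)

/-- The number `M_k(χ)` of monochromatic `k`-term arithmetic progressions in `[n]`. -/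
def M (k n : ℕ) {r : ℕ} (χ : ℕ → Fin r) : ℕ :=
  ((aps k n).filter (fun A => ∀ x ∈ A, ∀ y ∈ A, χ x = χ y)).card

/-- Pairs `(a, d)` with `1 ≤ a`, `1 ≤ d`, `a + K d ≤ n`. -/
def PP (K n : ℕ) : Finset (ℕ × ℕ) := (Icc 1 n ×ˢ Icc 1 n).filter (fun p => p.1 + K * p.2 ≤ n)

lemma mem_PP {K n : ℕ} {p : ℕ × ℕ} (hK : 1 ≤ K) :
    p ∈ PP K n ↔ 1 ≤ p.1 ∧ 1 ≤ p.2 ∧ p.1 + K * p.2 ≤ n := by
  simp only [PP, mem_filter, mem_product, mem_Icc]
  constructor
  · rintro ⟨⟨⟨h1, _⟩, h2, _⟩, h3⟩
    exact ⟨h1, h2, h3⟩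
  · rintro ⟨h1, h2, h3⟩
    have : 1 * p.2 ≤ K * p.2 := Nat.mul_le_mul_right _ hK
    exact ⟨⟨⟨h1, by omega⟩, h2, by omega⟩, h3⟩

lemma mem_ap {k a d x : ℕ} : x ∈ ap k a d ↔ ∃ j < k, a + j * d = x := by
  simp [ap]

lemma ap_inj {K a d a' d' : ℕ} (hK : 1 ≤ K)
    (h : ap (K + 1) a d = ap (K + 1) a' d') : a = a' ∧ d = d' := by
  have h1 : a ∈ ap (K + 1) a' d' := by
    rw [← h]; exact mem_ap.2 ⟨0, by omega, by simp⟩
  have h2 : a' ∈ ap (K + 1) a d := by
    rw [h]; exact mem_ap.2 ⟨0, by omega, by simp⟩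
  obtain ⟨j1, _, e1⟩ := mem_ap.1 h1
  obtain ⟨j2, _, e2⟩ := mem_ap.1 h2
  have haa : a = a' := by omega
  subst haa
  have h3 : a + d ∈ ap (K + 1) a d' := by
    rw [← h]; exact mem_ap.2 ⟨1, by omega, by simp⟩
  have h4 : a + d' ∈ ap (K + 1) a d := by
    rw [h]; exact mem_ap.2 ⟨1, by omega, by simp⟩
  obtain ⟨j3, _, e3⟩ := mem_ap.1 h3
  obtain ⟨j4, _, e4⟩ := mem_ap.1 h4
  have e3' : j3 * d' = d := by omega
  have e4' : j4 * d = d' := by omega
  refine ⟨rfl, Nat.dvd_antisymm ⟨j4, by rw [← e4', mul_comm]⟩ ⟨j3, by rw [← e3', mul_comm]⟩⟩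

lemma M_eq {K n r : ℕ} (hK : 1 ≤ K) (χ : ℕ → Fin r) :
    M (K + 1) n χ =
      ((PP K n).filter (fun p : ℕ × ℕ => ∀ j < K + 1, χ (p.1 + j * p.2) = χ p.1)).card := by
  classical
  unfold M
  rw [← Finset.card_image_of_injOn (s := (PP K n).filter
    (fun p => ∀ j < K + 1, χ (p.1 + j * p.2) = χ p.1)) (f := fun p => ap (K + 1) p.1 p.2)]
  · congr 1
    ext A
    simp only [mem_filter, aps, mem_image, mem_product, Prod.exists]
    constructor
    · rintro ⟨⟨⟨a, d, ⟨ha, hd⟩, rfl⟩, hsub⟩, hmono⟩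
      refine ⟨a, d, ⟨?_, ?_⟩, rfl⟩
      · rw [mem_PP hK]
        have : a + K * d ∈ ap (K + 1) a d := mem_ap.2 ⟨K, by omega, rfl⟩
        have := hsub this
        rw [mem_Icc] at ha hd this
        exact ⟨ha.1, hd.1, this.2⟩
      · intro j hj
        exact hmono _ (mem_ap.2 ⟨j, hj, rfl⟩) _ (mem_ap.2 ⟨0, by omega, by simp⟩)
    · rintro ⟨a, d, ⟨hP, hmono⟩, rfl⟩
      have hP' := (mem_PP hK).1 hP
      simp only [PP, mem_filter, mem_product] at hP
      refine ⟨⟨⟨a, d, hP.1, rfl⟩, ?_⟩, ?_⟩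
      · intro x hx
        obtain ⟨j, hj, rfl⟩ := mem_ap.1 hx
        rw [mem_Icc]
        have : j * d ≤ K * d := Nat.mul_le_mul_right _ (by omega)
        simp only at hP'
        omega
      · intro x hx y hy
        obtain ⟨j, hj, rfl⟩ := mem_ap.1 hx
        obtain ⟨l, hl, rfl⟩ := mem_ap.1 hy
        rw [hmono j hj, hmono l hl]
  · intro p hp q hq h
    rw [mem_coe, mem_filter, mem_PP hK] at hp hq
    obtain ⟨h1, h2⟩ := ap_inj hK h
    exact Prod.ext h1 h2

/-- Second order expansion of a product. -/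
lemma taylor (n : ℕ) : ∀ (z : ℕ → ℝ) (η : ℝ), 0 ≤ η → η ≤ 1 → (∀ j < n, |z j| ≤ η) →
    |∏ j ∈ range n, (1 + z j) - 1 - ∑ j ∈ range n, z j
      - ((∑ j ∈ range n, z j) ^ 2 - ∑ j ∈ range n, z j ^ 2) / 2| ≤ 4 ^ n * η ^ 3 := by
  induction n with
  | zero => intro z η h0 _ _; simp; positivity
  | succ n ih =>
    intro z η h0 h1 hz
    have ih' := ih z η h0 h1 (fun j hj => hz j (by omega))
    have hzn := hz n (by omega)
    rw [prod_range_succ, sum_range_succ, sum_range_succ]
    set P := ∏ j ∈ range n, (1 + z j)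
    set S := ∑ j ∈ range n, z j with hS
    set Q := ∑ j ∈ range n, z j ^ 2 with hQ
    have hSb : |S| ≤ n * η := by
      calc |S| ≤ ∑ j ∈ range n, |z j| := abs_sum_le_sum_abs _ _
        _ ≤ ∑ j ∈ range n, η := sum_le_sum fun j hj => hz j (by have := mem_range.1 hj; omega)
        _ = n * η := by simp
    have hQ0 : 0 ≤ Q := sum_nonneg fun j _ => sq_nonneg _
    have hQb : Q ≤ n * η ^ 2 := by
      calc Q ≤ ∑ j ∈ range n, η ^ 2 := by
            refine sum_le_sum fun j hj => ?_
            have := hz j (by have := mem_range.1 hj; omega)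
            rw [← sq_abs]
            exact pow_le_pow_left₀ (abs_nonneg _) this 2
        _ = n * η ^ 2 := by simp
    have hS2 : S ^ 2 ≤ n ^ 2 * η ^ 2 := by
      rw [← sq_abs, ← mul_pow]; exact pow_le_pow_left₀ (abs_nonneg _) hSb 2
    have he2 : |(S ^ 2 - Q) / 2| ≤ n ^ 2 * η ^ 2 := by
      rw [abs_le]
      have hn2 : (n : ℝ) * η ^ 2 ≤ n ^ 2 * η ^ 2 := by
        apply mul_le_mul_of_nonneg_right _ (by positivity)
        rcases Nat.eq_zero_or_pos n with h | h
        · subst h; simp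
        · have : (1 : ℝ) ≤ n := by exact_mod_cast h
          nlinarith
      constructor
      · nlinarith [sq_nonneg S]
      · nlinarith [sq_nonneg S]
    set R := P - 1 - S - (S ^ 2 - Q) / 2 with hR
    have e : P * (1 + z n) - 1 - (S + z n) - ((S + z n) ^ 2 - (Q + z n ^ 2)) / 2
        = R + z n * (R + (S ^ 2 - Q) / 2) := by rw [hR]; ring
    rw [e]
    have hn4 : (n : ℝ) ^ 2 ≤ 2 * 4 ^ n := by
      have : n ^ 2 ≤ 2 * 4 ^ n := by
        have h2 : n < 2 ^ n := Nat.lt_two_pow_self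
        calc n ^ 2 ≤ (2 ^ n) ^ 2 := Nat.pow_le_pow_left h2.le 2
          _ = 4 ^ n := by rw [← pow_mul, mul_comm, pow_mul]; norm_num
          _ ≤ 2 * 4 ^ n := by omega
      exact_mod_cast this
    calc |R + z n * (R + (S ^ 2 - Q) / 2)|
        ≤ |R| + |z n| * (|R| + |(S ^ 2 - Q) / 2|) := by
          refine (abs_add_le _ _).trans ?_
          rw [abs_mul]
          gcongr
          exact abs_add_le _ _
      _ ≤ 4 ^ n * η ^ 3 + η * (4 ^ n * η ^ 3 + n ^ 2 * η ^ 2) := by gcongr
      _ ≤ 4 ^ n * η ^ 3 + (4 ^ n * η ^ 3 + 2 * 4 ^ n * η ^ 3) := by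
          have h3 : η * (4 ^ n * η ^ 3) ≤ 1 * (4 ^ n * η ^ 3) :=
            mul_le_mul_of_nonneg_right h1 (by positivity)
          have h4 : (n : ℝ) ^ 2 * η ^ 3 ≤ 2 * 4 ^ n * η ^ 3 :=
            mul_le_mul_of_nonneg_right hn4 (by positivity)
          nlinarith
      _ = 4 ^ (n + 1) * η ^ 3 := by ring

/-- Some colouring has at most the expected number of monochromatic progressions. -/
lemma derand {K n r : ℕ} (hr : 0 < r) (p : ℕ → Fin r → ℝ) (h0 : ∀ x c, 0 ≤ p x c)
    (h1 : ∀ x, ∑ c, p x c = 1) (hK : 1 ≤ K) :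
    ∃ χ : ℕ → Fin r,
      (((PP K n).filter (fun q : ℕ × ℕ => ∀ j < K + 1, χ (q.1 + j * q.2) = χ q.1)).card : ℝ) ≤
        ∑ q ∈ PP K n, ∑ c, ∏ j ∈ range (K + 1), p (q.1 + j * q.2) c := by
  classical
  set E := ∑ q ∈ PP K n, ∑ c, ∏ j ∈ range (K + 1), p (q.1 + j * q.2) c with hE
  set ext : (Fin (n + 1) → Fin r) → ℕ → Fin r :=
    fun χ x => if h : x < n + 1 then χ ⟨x, h⟩ else ⟨0, hr⟩ with hext
  set w : (Fin (n + 1) → Fin r) → ℝ := fun χ => ∏ x : Fin (n + 1), p x (χ x) with hw
  have hw0 : ∀ χ, 0 ≤ w χ := fun χ => prod_nonneg fun x _ => h0 _ _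
  have hw1 : ∑ χ, w χ = 1 := by
    have := Finset.prod_univ_sum (fun _ : Fin (n + 1) => (univ : Finset (Fin r)))
      (fun x c => p x c)
    rw [Fintype.piFinset_univ] at this
    rw [hw, ← this]
    simp [h1]
  have marg : ∀ (A : Finset (Fin (n + 1))) (c : Fin r),
      ∑ χ : Fin (n + 1) → Fin r, (if ∀ x ∈ A, χ x = c then w χ else 0) = ∏ x ∈ A, p x c := by
    intro A c
    have e1 : ∀ χ : Fin (n + 1) → Fin r, (if ∀ x ∈ A, χ x = c then w χ else 0) =
        ∏ x : Fin (n + 1), (if x ∈ A → χ x = c then p x (χ x) else 0) := by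
      intro χ
      split_ifs with h
      · exact prod_congr rfl fun x _ => by rw [if_pos (h x)]
      · push Not at h
        obtain ⟨x, hx, hne⟩ := h
        symm
        apply prod_eq_zero (mem_univ x)
        rw [if_neg]
        intro h'; exact hne (h' hx)
    rw [sum_congr rfl fun χ _ => e1 χ]
    have := Finset.prod_univ_sum (fun _ : Fin (n + 1) => (univ : Finset (Fin r)))
      (fun x c' => if x ∈ A → c' = c then p x c' else 0)
    rw [Fintype.piFinset_univ] at this
    rw [← this]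
    have e2 : ∀ x : Fin (n + 1), ∑ c' : Fin r, (if x ∈ A → c' = c then p x c' else 0) =
        if x ∈ A then p x c else 1 := by
      intro x
      by_cases hx : x ∈ A
      · simp [hx]
      · simp [hx, h1]
    rw [prod_congr rfl fun x _ => e2 x]
    rw [Finset.prod_ite_mem, univ_inter]
  -- expectation
  have hexp : ∑ χ, w χ * (((PP K n).filter
      (fun q => ∀ j < K + 1, ext χ (q.1 + j * q.2) = ext χ q.1)).card : ℝ) = E := by
    have e1 : ∀ χ, w χ * (((PP K n).filter
        (fun q => ∀ j < K + 1, ext χ (q.1 + j * q.2) = ext χ q.1)).card : ℝ)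
        = ∑ q ∈ PP K n, ∑ c, (if ∀ j < K + 1, ext χ (q.1 + j * q.2) = c
            then w χ else 0) := by
      intro χ
      rw [card_filter]
      push_cast
      rw [mul_sum]
      refine sum_congr rfl fun q _ => ?_
      by_cases h : ∀ j < K + 1, ext χ (q.1 + j * q.2) = ext χ q.1
      · rw [if_pos h, mul_one]
        rw [sum_eq_single (ext χ q.1)]
        · rw [if_pos h]
        · intro c _ hc
          rw [if_neg]
          intro h'
          apply hc
          have := h' 0 (by simp)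
          simpa using this.symm
        · intro h'; exact absurd (mem_univ _) h'
      · rw [if_neg h, mul_zero]
        symm
        apply sum_eq_zero
        intro c _
        rw [if_neg]
        intro h'
        apply h
        intro j hj
        have h0' := h' 0 (by simp)
        simp only [zero_mul, add_zero] at h0'
        rw [h' j hj, h0']
    rw [sum_congr rfl fun χ _ => e1 χ, sum_comm, hE]
    refine sum_congr rfl fun q hq => ?_
    rw [sum_comm]
    refine sum_congr rfl fun c _ => ?_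
    have hq' := (mem_PP hK).1 hq
    have hlt : ∀ j ∈ range (K + 1), q.1 + j * q.2 < n + 1 := by
      intro j hj
      have : j * q.2 ≤ K * q.2 := Nat.mul_le_mul_right _ (by have := mem_range.1 hj; omega)
      omega
    set g : ℕ → Fin (n + 1) := fun j => if h : q.1 + j * q.2 < n + 1 then ⟨q.1 + j * q.2, h⟩ else 0
      with hg
    have hginj : Set.InjOn g (range (K + 1) : Finset ℕ) := by
      intro j hj l hl h
      have hj' := hlt j hj
      have hl' := hlt l hl
      simp only [hg, dif_pos hj', dif_pos hl', Fin.mk.injEq] at h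
      have : j * q.2 = l * q.2 := by omega
      exact Nat.eq_of_mul_eq_mul_right (by omega) this
    have := marg ((range (K + 1)).image g) c
    rw [prod_image hginj] at this
    rw [prod_congr rfl (g := fun j => p (q.1 + j * q.2) c) (fun j hj => by
      simp only [hg, dif_pos (hlt j hj)])] at this
    rw [← this]
    refine sum_congr rfl fun χ _ => ?_
    congr 1
    apply propext
    constructor
    · intro h x hx
      obtain ⟨j, hj, rfl⟩ := mem_image.1 hx
      have := h j (mem_range.1 hj)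
      simp only [hext, dif_pos (hlt j hj)] at this
      simp only [hg, dif_pos (hlt j hj)]
      exact this
    · intro h j hj
      have := h (g j) (mem_image_of_mem g (mem_range.2 hj))
      simp only [hg, dif_pos (hlt j (mem_range.2 hj))] at this
      simp only [hext, dif_pos (hlt j (mem_range.2 hj))]
      exact this
  by_contra hcon
  push Not at hcon
  have hpos : ∃ χ, 0 < w χ := by
    by_contra h
    push Not at h
    have : ∑ χ, w χ ≤ 0 := sum_nonpos fun χ _ => h χ
    linarith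
  obtain ⟨χ₀, hχ₀⟩ := hpos
  have : 0 < ∑ χ, w χ * ((((PP K n).filter
      (fun q => ∀ j < K + 1, ext χ (q.1 + j * q.2) = ext χ q.1)).card : ℝ) - E) := by
    apply sum_pos'
    · intro χ _
      exact mul_nonneg (hw0 χ) (by have := hcon (ext χ); linarith)
    · exact ⟨χ₀, mem_univ _, mul_pos hχ₀ (by have := hcon (ext χ₀); linarith)⟩
  simp only [mul_sub, sum_sub_distrib, hexp, ← sum_mul, hw1] at this
  linarith

end Pool.Agent.TH397.BR
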