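import Pool.Agent.TH397.BR1

set_option autoImplicit false

namespace Pool.Agent.TH397.BR

open Finset

/-- The perturbation: `1` on the first and third block, `-2` on the middle block. -/
noncomputable def ff (u1 u2 u3 m : ℕ) (x : ℕ) : ℝ :=
  (if x ∈ Ico u1 (u1 + m) then 1 else 0) - 2 * (if x ∈ Ico u2 (u2 + m) then 1 else 0)
    + (if x ∈ Ico u3 (u3 + m) then 1 else 0)

lemma cnt {n u m e ρ : ℕ} (h1 : 1 ≤ u) (b : u + m ≤ n + 1) (he : e ∣ m) :
    ∑ y ∈ Icc 1 n, (if y % e = ρ then (if y ∈ Ico u (u + m) then (1 : ℝ) else 0) else 0) =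
      (m.count (fun y => y % e = ρ) : ℝ) := by
  have e1 : ∀ y ∈ Icc 1 n, (if y % e = ρ then (if y ∈ Ico u (u + m) then (1 : ℝ) else 0) else 0)
      = if (y % e = ρ ∧ y ∈ Ico u (u + m)) then (1 : ℝ) else 0 := by
    intro y _
    by_cases h : y % e = ρ <;> simp [h]
  rw [sum_congr rfl e1, ← sum_filter, sum_const, nsmul_eq_mul, mul_one]
  have e2 : (Icc 1 n).filter (fun y => y % e = ρ ∧ y ∈ Ico u (u + m)) =
      (Ico u (u + m)).filter (fun y => y % e = ρ) := by
    ext y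
    simp only [mem_filter, mem_Icc, mem_Ico]
    constructor
    · rintro ⟨_, h2, h3⟩; exact ⟨h3, h2⟩
    · rintro ⟨h3, h2⟩; exact ⟨by omega, h2, h3⟩
  rw [e2]
  congr 1
  apply Nat.filter_Ico_card_eq_of_periodic
  intro y
  obtain ⟨t, rfl⟩ := he
  simp

lemma class_sum {n u1 u2 u3 m e ρ : ℕ} (h1 : 1 ≤ u1) (h2 : 1 ≤ u2) (h3 : 1 ≤ u3)
    (b1 : u1 + m ≤ n + 1) (b2 : u2 + m ≤ n + 1) (b3 : u3 + m ≤ n + 1) (he : e ∣ m) :
    ∑ y ∈ Icc 1 n, (if y % e = ρ then ff u1 u2 u3 m y else 0) = 0 := by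
  have e1 : ∀ y ∈ Icc 1 n, (if y % e = ρ then ff u1 u2 u3 m y else 0) =
      (if y % e = ρ then (if y ∈ Ico u1 (u1 + m) then (1 : ℝ) else 0) else 0)
      - 2 * (if y % e = ρ then (if y ∈ Ico u2 (u2 + m) then (1 : ℝ) else 0) else 0)
      + (if y % e = ρ then (if y ∈ Ico u3 (u3 + m) then (1 : ℝ) else 0) else 0) := by
    intro y _
    unfold ff
    by_cases h : y % e = ρ
    · simp only [h, if_true]
    · simp only [h, if_false]; ring
  rw [sum_congr rfl e1, sum_add_distrib, sum_sub_distrib, ← mul_sum, cnt h1 b1 he, cnt h2 b2 he,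
    cnt h3 b3 he]
  ring

/-- Sum over ordered pairs in one residue class. -/
lemma T_nonpos {n e : ℕ} (f : ℕ → ℝ)
    (hf : ∀ ρ, ∑ y ∈ Icc 1 n, (if y % e = ρ then f y else 0) = 0) :
    ∑ x ∈ Icc 1 n, ∑ y ∈ Icc 1 n, (if x < y ∧ x % e = y % e then f x * f y else 0) ≤ 0 := by
  obtain ⟨T, hT⟩ : ∃ T, T = ∑ x ∈ Icc 1 n, ∑ y ∈ Icc 1 n,
    (if x < y ∧ x % e = y % e then f x * f y else 0) := ⟨_, rfl⟩
  rw [← hT]
  have h0 : ∑ x ∈ Icc 1 n, ∑ y ∈ Icc 1 n, (if x % e = y % e then f x * f y else 0) = 0 := by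
    apply sum_eq_zero
    intro x _
    have : ∀ y ∈ Icc 1 n, (if x % e = y % e then f x * f y else 0) =
        f x * (if y % e = x % e then f y else 0) := by
      intro y _
      by_cases h : x % e = y % e
      · simp [h]
      · have h' : ¬ y % e = x % e := fun h'' => h h''.symm
        simp [h, h']
    rw [sum_congr rfl this, ← mul_sum, hf, mul_zero]
  have hT' : ∑ x ∈ Icc 1 n, ∑ y ∈ Icc 1 n, (if y < x ∧ x % e = y % e then f x * f y else 0) = T := by
    rw [sum_comm, hT]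
    refine sum_congr rfl fun x _ => sum_congr rfl fun y _ => ?_
    by_cases h : x < y ∧ x % e = y % e
    · rw [if_pos h, if_pos ⟨h.1, h.2.symm⟩, mul_comm]
    · rw [if_neg h, if_neg]
      intro h'; exact h ⟨h'.1, h'.2.symm⟩
  have hD : ∑ x ∈ Icc 1 n, ∑ y ∈ Icc 1 n, (if x = y then f x * f y else 0) =
      ∑ x ∈ Icc 1 n, f x ^ 2 := by
    refine sum_congr rfl fun x hx => ?_
    rw [sum_ite_eq, if_pos hx, sq]
  have hsplit : ∑ x ∈ Icc 1 n, ∑ y ∈ Icc 1 n, (if x % e = y % e then f x * f y else 0) =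
      ∑ x ∈ Icc 1 n, ∑ y ∈ Icc 1 n, (if x < y ∧ x % e = y % e then f x * f y else 0)
      + ∑ x ∈ Icc 1 n, ∑ y ∈ Icc 1 n, (if x = y then f x * f y else 0)
      + ∑ x ∈ Icc 1 n, ∑ y ∈ Icc 1 n, (if y < x ∧ x % e = y % e then f x * f y else 0) := by
    rw [← sum_add_distrib, ← sum_add_distrib]
    refine sum_congr rfl fun x _ => ?_
    rw [← sum_add_distrib, ← sum_add_distrib]
    refine sum_congr rfl fun y _ => ?_
    rcases lt_trichotomy x y with h | h | h
    · have h1 : ¬ x = y := by omega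
      have h2 : ¬ y < x := by omega
      simp [h, h1, h2]
    · subst h; simp
    · have h1 : ¬ x = y := by omega
      have h2 : ¬ x < y := by omega
      simp [h, h1, h2]
  rw [h0, hT', hD, ← hT] at hsplit
  have hsq : 0 ≤ ∑ x ∈ Icc 1 n, f x ^ 2 := sum_nonneg fun x _ => sq_nonneg _
  linarith

lemma sq_sum_eq (g : ℕ → ℝ) (n : ℕ) : (∑ j ∈ range n, g j) ^ 2 - ∑ j ∈ range n, g j ^ 2 =
    2 * ∑ l ∈ range n, ∑ j ∈ range l, g j * g l := by
  induction n with
  | zero => simp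
  | succ n ih =>
    rw [sum_range_succ, sum_range_succ, sum_range_succ, ← sum_mul]
    linear_combination ih

/-- A negative product only comes from neighbouring blocks. -/
lemma neg_cases {u1 u2 u3 m x y : ℕ} (h12 : u1 + m ≤ u2) (h23 : u2 + m ≤ u3) (hxy : x < y)
    (hneg : ff u1 u2 u3 m x * ff u1 u2 u3 m y < 0) :
    (x ∈ Ico u1 (u1 + m) ∧ y ∈ Ico u2 (u2 + m)) ∨ (x ∈ Ico u2 (u2 + m) ∧ y ∈ Ico u3 (u3 + m)) := by
  by_contra hcon
  push Not at hcon
  apply absurd hneg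
  rw [not_lt]
  unfold ff
  simp only [mem_Ico] at *
  obtain ⟨hc1, hc2⟩ := hcon
  by_cases a1 : u1 ≤ x ∧ x < u1 + m
  · have a2 : ¬ (u2 ≤ x ∧ x < u2 + m) := by omega
    have a3 : ¬ (u3 ≤ x ∧ x < u3 + m) := by omega
    have b2 := hc1 a1
    by_cases b1 : u1 ≤ y ∧ y < u1 + m
    · have b2 : ¬ (u2 ≤ y ∧ y < u2 + m) := by omega
      have b3 : ¬ (u3 ≤ y ∧ y < u3 + m) := by omega
      simp [a1, a2, a3, b1, b2, b3]
    · have b2' : ¬ (u2 ≤ y ∧ y < u2 + m) := by omega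
      simp only [a1, a2, a3, b1, b2', if_true, if_false]
      split_ifs <;> norm_num
  · by_cases a2 : u2 ≤ x ∧ x < u2 + m
    · have a3 : ¬ (u3 ≤ x ∧ x < u3 + m) := by omega
      have b3 := hc2 a2
      have b3' : ¬ (u3 ≤ y ∧ y < u3 + m) := by omega
      have b1 : ¬ (u1 ≤ y ∧ y < u1 + m) := by omega
      simp only [a1, a2, a3, b1, b3', if_true, if_false]
      split_ifs <;> norm_num
    · by_cases a3 : u3 ≤ x ∧ x < u3 + m
      · have b1 : ¬ (u1 ≤ y ∧ y < u1 + m) := by omega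
        have b2 : ¬ (u2 ≤ y ∧ y < u2 + m) := by omega
        simp only [a1, a2, a3, b1, b2, if_true, if_false]
        split_ifs <;> norm_num
      · simp [a1, a2, a3]

/-- The correlation sums. -/
lemma S_bound {K n u1 u2 u3 m j l : ℕ} (hK : 1 ≤ K) (hjl : j < l) (hl : l ≤ K)
    (h1 : 1 ≤ u1) (h12 : u1 + m ≤ u2) (h23 : u2 + m ≤ u3) (h3 : u3 + m ≤ n + 1)
    (hdiv : ∀ e, 1 ≤ e → e ≤ K → e ∣ m)
    (H12 : ∀ x ∈ Ico u1 (u1 + m), ∀ y ∈ Ico u2 (u2 + m),
      (K - 1) * (y - x) < x ∧ y + (K - 1) * (y - x) ≤ n)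
    (H23 : ∀ x ∈ Ico u2 (u2 + m), ∀ y ∈ Ico u3 (u3 + m),
      (K - 1) * (y - x) < x ∧ y + (K - 1) * (y - x) ≤ n)
    (H13 : ∀ x ∈ Ico u1 (u1 + m), ∀ y ∈ Ico u3 (u3 + m), n < x + K * (y - x)) :
    ∑ p ∈ PP K n, ff u1 u2 u3 m (p.1 + j * p.2) * ff u1 u2 u3 m (p.1 + l * p.2) ≤
      if l = 1 then -(m : ℝ) ^ 2 else 0 := by
  classical
  set f := ff u1 u2 u3 m with hf
  set e := l - j with he
  have he1 : 1 ≤ e := by omega
  have heK : e ≤ K := by omega
  set U := ((Icc 1 n) ×ˢ (Icc 1 n)).filter (fun q : ℕ × ℕ => q.1 < q.2 ∧ q.1 % e = q.2 % e) with hU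
  set φ : ℕ × ℕ → ℕ × ℕ := fun p => (p.1 + j * p.2, p.1 + l * p.2) with hφ
  have hT : ∑ q ∈ U, f q.1 * f q.2 ≤ 0 := by
    rw [hU, sum_filter, sum_product]
    exact T_nonpos f (fun ρ => class_sum h1 (by omega) (by omega) (by omega) (by omega) h3
      (hdiv e he1 heK))
  have hinj : Set.InjOn φ (PP K n : Finset (ℕ × ℕ)) := by
    intro p hp q hq h
    simp only [hφ, Prod.mk.injEq] at h
    have e1 : (l - j) * p.2 = (l - j) * q.2 := by
      rw [Nat.sub_mul, Nat.sub_mul]; omega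
    have e2 : p.2 = q.2 := Nat.eq_of_mul_eq_mul_left (by omega) e1
    refine Prod.ext ?_ e2
    have := h.1
    rw [e2] at this
    omega
  have himg : ∑ p ∈ PP K n, f (p.1 + j * p.2) * f (p.1 + l * p.2) =
      ∑ q ∈ (PP K n).image φ, f q.1 * f q.2 := by
    rw [sum_image hinj]
  have hsub : (PP K n).image φ ⊆ U := by
    intro q hq
    obtain ⟨p, hp, rfl⟩ := mem_image.1 hq
    have hp' := (mem_PP hK).1 hp
    have hle : l * p.2 ≤ K * p.2 := Nat.mul_le_mul_right _ hl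
    have hlt : j * p.2 < l * p.2 := Nat.mul_lt_mul_of_pos_right hjl (by omega)
    simp only [hU, hφ, mem_filter, mem_product, mem_Icc]
    refine ⟨⟨⟨by omega, by omega⟩, by omega, by omega⟩, by omega, ?_⟩
    have : p.1 + l * p.2 = (p.1 + j * p.2) + e * p.2 := by
      rw [he, Nat.sub_mul]; omega
    rw [this, Nat.add_mul_mod_self_left]
  have hmem : ∀ x y : ℕ, x < y → x % e = y % e → (K - 1) * (y - x) < x → y + (K - 1) * (y - x) ≤ n →
      (x, y) ∈ (PP K n).image φ := by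
    intro x y hxy hmod hx hy
    have hd : e ∣ y - x := (Nat.modEq_iff_dvd' hxy.le).1 hmod
    obtain ⟨d, hd⟩ := hd
    have hd1 : 1 ≤ d := by
      rcases Nat.eq_zero_or_pos d with h | h
      · subst h; omega
      · exact h
    have hdle : d ≤ y - x := by rw [hd]; exact Nat.le_mul_of_pos_left _ he1
    have hjd : j * d ≤ (K - 1) * (y - x) := Nat.mul_le_mul (by omega) hdle
    have hKl : (K - l) * d ≤ (K - 1) * (y - x) := Nat.mul_le_mul (by omega) hdle
    have e3 : l * d = j * d + e * d := by rw [he, Nat.sub_mul]; have := Nat.mul_le_mul_right d hjl.le; omega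
    have e4 : K * d = l * d + (K - l) * d := by
      rw [Nat.sub_mul]; have := Nat.mul_le_mul_right d hl; omega
    refine mem_image.2 ⟨(x - j * d, d), (mem_PP hK).2 ⟨?_, hd1, ?_⟩, ?_⟩
    · simp only; omega
    · simp only; omega
    · simp only [hφ, Prod.mk.injEq]
      constructor <;> omega
  have hnonneg : ∀ q ∈ U, q ∉ (PP K n).image φ → 0 ≤ f q.1 * f q.2 := by
    rintro ⟨x, y⟩ hq hnot
    simp only [hU, mem_filter, mem_product] at hq
    by_contra hneg
    rw [not_le] at hneg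
    apply hnot
    rcases neg_cases h12 h23 hq.2.1 hneg with ⟨hx, hy⟩ | ⟨hx, hy⟩
    · exact hmem x y hq.2.1 hq.2.2 (H12 x hx y hy).1 (H12 x hx y hy).2
    · exact hmem x y hq.2.1 hq.2.2 (H23 x hx y hy).1 (H23 x hx y hy).2
  rw [himg]
  split_ifs with hl1
  · -- the extreme pairs
    have hj0 : j = 0 := by omega
    have he' : e = 1 := by omega
    set W := (Ico u1 (u1 + m)) ×ˢ (Ico u3 (u3 + m)) with hW
    have hWsub : W ⊆ U \ (PP K n).image φ := by
      rintro ⟨x, y⟩ hq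
      rw [hW, mem_product] at hq
      have hx := hq.1
      have hy := hq.2
      simp only [mem_Ico] at hx hy
      rw [mem_sdiff]
      constructor
      · simp only [hU, mem_filter, mem_product, mem_Icc]
        refine ⟨⟨⟨by omega, by omega⟩, by omega, by omega⟩, by omega, ?_⟩
        rw [he', Nat.mod_one, Nat.mod_one]
      · intro hmem'
        obtain ⟨p, hp, hp2⟩ := mem_image.1 hmem'
        have hp' := (mem_PP hK).1 hp
        simp only [hφ, Prod.mk.injEq, hl1, hj0] at hp2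
        have := H13 x hq.1 y hq.2
        have hyx : y - x = p.2 := by omega
        rw [hyx] at this
        omega
    have hWval : ∑ q ∈ W, f q.1 * f q.2 = (m : ℝ) ^ 2 := by
      have : ∀ q ∈ W, f q.1 * f q.2 = 1 := by
        rintro ⟨x, y⟩ hq
        rw [hW, mem_product] at hq
        have hx := hq.1
        have hy := hq.2
        simp only [mem_Ico] at hx hy
        have a1 : u1 ≤ x ∧ x < u1 + m := hx
        have a2 : ¬ (u2 ≤ x ∧ x < u2 + m) := by omega
        have a3 : ¬ (u3 ≤ x ∧ x < u3 + m) := by omega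
        have b1 : ¬ (u1 ≤ y ∧ y < u1 + m) := by omega
        have b2 : ¬ (u2 ≤ y ∧ y < u2 + m) := by omega
        have b3 : (u3 ≤ y ∧ y < u3 + m) := hy
        simp only [hf, ff, mem_Ico, a1, a2, a3, b1, b2, b3, if_true, if_false]
        norm_num
      rw [sum_congr rfl this, sum_const, hW, card_product, Nat.card_Ico, Nat.card_Ico]
      simp [sq]
    have hle : ∑ q ∈ W, f q.1 * f q.2 ≤ ∑ q ∈ U \ (PP K n).image φ, f q.1 * f q.2 := by
      apply sum_le_sum_of_subset_of_nonneg hWsub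
      intro q hq _
      rw [mem_sdiff] at hq
      exact hnonneg q hq.1 hq.2
    have := sum_sdiff (f := fun q : ℕ × ℕ => f q.1 * f q.2) hsub
    linarith
  · refine le_trans ?_ hT
    exact sum_le_sum_of_subset_of_nonneg hsub hnonneg

end Pool.Agent.TH397.BR
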