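import Pool.Agent.TH397.BR2

set_option autoImplicit false

namespace Pool.Agent.TH397.BR

open Finset

lemma arith12 {k s m n x y : ℕ} (hkm : (k + 2) * m ≤ s) (hnlow : (4 * k + 10) * s ≤ n)
    (hx : (2 * k + 3) * s + 1 ≤ x ∧ x < (2 * k + 3) * s + 1 + m)
    (hy : (2 * k + 5) * s + 1 ≤ y ∧ y < (2 * k + 5) * s + 1 + m) :
    (k + 2 - 1) * (y - x) < x ∧ y + (k + 2 - 1) * (y - x) ≤ n := by
  have hyx : y - x ≤ 2 * s + m := by
    have : (2 * k + 5) * s = (2 * k + 3) * s + 2 * s := by ring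
    omega
  have h1 : (k + 2 - 1) * (y - x) ≤ (k + 1) * (2 * s + m) := Nat.mul_le_mul (by omega) hyx
  have h2 : (k + 1) * (2 * s + m) ≤ (2 * k + 3) * s := by nlinarith
  have h3 : (2 * k + 5) * s + 1 + m + (k + 1) * (2 * s + m) ≤ (4 * k + 10) * s + 1 := by
    nlinarith
  constructor <;> omega

lemma arith23 {k s m n x y : ℕ} (hkm : (k + 2) * m ≤ s) (hnlow : (4 * k + 10) * s ≤ n)
    (hx : (2 * k + 5) * s + 1 ≤ x ∧ x < (2 * k + 5) * s + 1 + m)
    (hy : (2 * k + 7) * s + 1 ≤ y ∧ y < (2 * k + 7) * s + 1 + m) :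
    (k + 2 - 1) * (y - x) < x ∧ y + (k + 2 - 1) * (y - x) ≤ n := by
  have hyx : y - x ≤ 2 * s + m := by
    have : (2 * k + 7) * s = (2 * k + 5) * s + 2 * s := by ring
    omega
  have h1 : (k + 2 - 1) * (y - x) ≤ (k + 1) * (2 * s + m) := Nat.mul_le_mul (by omega) hyx
  have h2 : (k + 1) * (2 * s + m) ≤ (2 * k + 3) * s := by nlinarith
  have h3 : (2 * k + 7) * s + 1 + m + (k + 1) * (2 * s + m) ≤ (4 * k + 10) * s + 1 := by
    nlinarith
  have h4 : (2 * k + 3) * s ≤ (2 * k + 5) * s := by nlinarith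
  constructor <;> omega

lemma arith13 {k s m n x y B : ℕ} (hs4 : s = 2 * (k + 2) * m) (hm0 : B ≤ m)
    (hnup : n < (4 * k + 10) * s + B)
    (hx : (2 * k + 3) * s + 1 ≤ x ∧ x < (2 * k + 3) * s + 1 + m)
    (hy : (2 * k + 7) * s + 1 ≤ y ∧ y < (2 * k + 7) * s + 1 + m) :
    n < x + (k + 2) * (y - x) := by
  have hyx : 4 * s - m ≤ y - x := by
    have : (2 * k + 7) * s = (2 * k + 3) * s + 4 * s := by ring
    omega
  have h1 : (k + 2) * (4 * s - m) ≤ (k + 2) * (y - x) := Nat.mul_le_mul_left _ hyx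
  have h5 : (k + 2) * (4 * s - m) = (4 * k + 8) * s - (k + 2) * m := by
    rw [Nat.mul_sub]; ring_nf
  -- (2k+3)s + (4k+8)s - (k+2)m ≥ (4k+10)s + B
  have h6 : (4 * k + 10) * s + B + (k + 2) * m ≤ (2 * k + 3) * s + (4 * k + 8) * s := by
    have e1 : (2 * k + 3) * s + (4 * k + 8) * s = (4 * k + 10) * s + (2 * k + 1) * s := by ring
    have e2 : (2 * k + 1) * s = (2 * k + 1) * (2 * (k + 2)) * m := by rw [hs4]; ring
    rw [e1, e2]
    have h8 : (k + 3) * m ≤ (2 * k + 1) * (2 * (k + 2)) * m := by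
      apply Nat.mul_le_mul_right
      nlinarith
    have h7 : (k + 3) * m = (k + 2) * m + m := by ring
    omega
  omega

/-- The parameters: for large `n` there are three blocks of length proportional to `n` for which the
pair correlation sum is at most `-2 m²`. -/
lemma blocks (K : ℕ) (hK : 2 ≤ K) : ∃ B : ℕ, 0 < B ∧ ∀ n : ℕ, B ≤ n →
    ∃ (u1 u2 u3 m : ℕ), (n : ℝ) ≤ B * m ∧
      ∑ p ∈ PP K n, ((∑ j ∈ range (K + 1), ff u1 u2 u3 m (p.1 + j * p.2)) ^ 2
        - ∑ j ∈ range (K + 1), ff u1 u2 u3 m (p.1 + j * p.2) ^ 2) ≤ -2 * (m : ℝ) ^ 2 := by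
  classical
  -- `L = K!`
  obtain ⟨L, hL1, hLdiv⟩ : ∃ L : ℕ, 0 < L ∧ ∀ e, 1 ≤ e → e ≤ K → e ∣ L :=
    ⟨Nat.factorial K, Nat.factorial_pos K, fun e h1 h2 => Nat.dvd_factorial h1 h2⟩
  obtain ⟨B, hB⟩ : ∃ B, B = 4 * K * (2 * K + 1) * L := ⟨_, rfl⟩
  have hB1 : 0 < B := by rw [hB]; positivity
  refine ⟨2 * B * B, by positivity, fun n hn => ?_⟩
  obtain ⟨t, ht⟩ : ∃ t, t = n / B := ⟨_, rfl⟩
  have htB : B ≤ t := by
    rw [ht, Nat.le_div_iff_mul_le hB1]
    calc B * B ≤ 2 * B * B := by nlinarith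
      _ ≤ n := hn
  have hn1 : B * t ≤ n := by rw [ht]; exact Nat.mul_div_le n B
  have hn2 : n < B * (t + 1) := by
    rw [ht]
    exact Nat.lt_mul_div_succ n hB1
  obtain ⟨m, hm⟩ : ∃ m, m = L * t := ⟨_, rfl⟩
  obtain ⟨s, hs⟩ : ∃ s, s = 2 * K * m := ⟨_, rfl⟩
  have hBt : B * t = 2 * (2 * K + 1) * s := by rw [hB, hs, hm]; ring
  obtain ⟨k, rfl⟩ : ∃ k, K = k + 2 := ⟨K - 2, by omega⟩
  have hm0 : B ≤ m := by
    rw [hm]; exact htB.trans (Nat.le_mul_of_pos_left _ hL1)
  -- `u1 = (2K-1)s+1`, etc.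
  refine ⟨(2 * k + 3) * s + 1, (2 * k + 5) * s + 1, (2 * k + 7) * s + 1, m, ?_, ?_⟩
  · have : n ≤ 2 * B * B * m := by
      have h1 : B * (t + 1) ≤ B * (2 * t) := Nat.mul_le_mul_left _ (by omega)
      have h2 : t ≤ m := by rw [hm]; exact Nat.le_mul_of_pos_left _ hL1
      have h3 : B * (2 * t) ≤ 2 * B * m := by nlinarith
      have h4 : 2 * B * m ≤ 2 * B * B * m := by
        have : 2 * B * m * 1 ≤ 2 * B * m * B := Nat.mul_le_mul_left _ hB1
        nlinarith
      omega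
    exact_mod_cast this
  have hs4 : s = 2 * (k + 2) * m := hs
  have hsm : 4 * m ≤ s := by rw [hs4]; nlinarith
  have hnlow : (4 * k + 10) * s ≤ n := by
    have : 2 * (2 * (k + 2) + 1) * s = (4 * k + 10) * s := by ring
    omega
  have hnup : n < (4 * k + 10) * s + B := by
    have : 2 * (2 * (k + 2) + 1) * s = (4 * k + 10) * s := by ring
    have h2 : B * (t + 1) = B * t + B := by ring
    omega
  have hkm : (k + 2) * m ≤ s := by rw [hs4]; nlinarith
  have key : ∀ p ∈ PP (k + 2) n,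
      ((∑ j ∈ range (k + 2 + 1), ff ((2 * k + 3) * s + 1) ((2 * k + 5) * s + 1)
        ((2 * k + 7) * s + 1) m (p.1 + j * p.2)) ^ 2
        - ∑ j ∈ range (k + 2 + 1), ff ((2 * k + 3) * s + 1) ((2 * k + 5) * s + 1)
        ((2 * k + 7) * s + 1) m (p.1 + j * p.2) ^ 2) =
      2 * ∑ l ∈ range (k + 2 + 1), ∑ j ∈ range l,
        ff ((2 * k + 3) * s + 1) ((2 * k + 5) * s + 1) ((2 * k + 7) * s + 1) m (p.1 + j * p.2) *
        ff ((2 * k + 3) * s + 1) ((2 * k + 5) * s + 1) ((2 * k + 7) * s + 1) m (p.1 + l * p.2) :=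
    fun p _ => sq_sum_eq (fun j => ff ((2 * k + 3) * s + 1) ((2 * k + 5) * s + 1)
        ((2 * k + 7) * s + 1) m (p.1 + j * p.2)) (k + 2 + 1)
  rw [sum_congr rfl key, ← mul_sum, sum_comm]
  have hb : ∀ l ∈ range (k + 2 + 1), ∑ p ∈ PP (k + 2) n, ∑ j ∈ range l,
        ff ((2 * k + 3) * s + 1) ((2 * k + 5) * s + 1) ((2 * k + 7) * s + 1) m (p.1 + j * p.2) *
        ff ((2 * k + 3) * s + 1) ((2 * k + 5) * s + 1) ((2 * k + 7) * s + 1) m (p.1 + l * p.2) ≤
        if l = 1 then -(m : ℝ) ^ 2 else 0 := by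
    intro l hl
    rw [sum_comm]
    have hl' : l ≤ k + 2 := by have := mem_range.1 hl; omega
    have hj : ∀ j ∈ range l, ∑ p ∈ PP (k + 2) n,
        ff ((2 * k + 3) * s + 1) ((2 * k + 5) * s + 1) ((2 * k + 7) * s + 1) m (p.1 + j * p.2) *
        ff ((2 * k + 3) * s + 1) ((2 * k + 5) * s + 1) ((2 * k + 7) * s + 1) m (p.1 + l * p.2) ≤
        if l = 1 then -(m : ℝ) ^ 2 else 0 := by
      intro j hj
      have hjl : j < l := mem_range.1 hj
      apply S_bound (by omega) hjl hl' (by omega)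
      · nlinarith
      · nlinarith
      · have : (2 * k + 7) * s + m ≤ (4 * k + 10) * s := by nlinarith
        omega
      · intro e he1 he2
        rw [hm]
        exact Dvd.dvd.mul_right (hLdiv e he1 he2) t
      · intro x hx y hy
        exact arith12 hkm hnlow (mem_Ico.1 hx) (mem_Ico.1 hy)
      · intro x hx y hy
        exact arith23 hkm hnlow (mem_Ico.1 hx) (mem_Ico.1 hy)
      · intro x hx y hy
        exact arith13 hs4 hm0 hnup (mem_Ico.1 hx) (mem_Ico.1 hy)
    rcases Nat.eq_zero_or_pos l with h0 | h0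
    · subst h0; simp
    · by_cases hl1 : l = 1
      · subst hl1
        have := hj 0 (by simp)
        simpa using this
      · rw [if_neg hl1]
        apply sum_nonpos
        intro j hj'
        have := hj j hj'
        rwa [if_neg hl1] at this
  have hsum := sum_le_sum hb
  rw [sum_ite_eq' (range (k + 2 + 1)) 1, if_pos (by simp)] at hsum
  linarith

lemma card_PP_eq {K n : ℕ} : ((PP K n).card : ℝ) = ∑ d ∈ range n, ((n - K * (d + 1) : ℕ) : ℝ) := by
  classical
  rw [PP, card_filter, sum_product_right]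
  push_cast
  rw [← Finset.sum_image (s := range n) (g := fun d => d + 1)
    (f := fun d => ((n - K * d : ℕ) : ℝ)) (by intro a _ b _ h; simpa using h)]
  have : (range n).image (fun d => d + 1) = Icc 1 n := by
    ext x; simp only [mem_image, mem_range, mem_Icc]
    constructor
    · rintro ⟨a, ha, rfl⟩; omega
    · rintro ⟨h1, h2⟩; exact ⟨x - 1, by omega, by omega⟩
  rw [this]
  refine sum_congr rfl fun d _ => ?_
  rw [← sum_filter, sum_const, nsmul_eq_mul, mul_one]
  have : (Icc 1 n).filter (fun a => a + K * d ≤ n) = Icc 1 (n - K * d) := by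
    ext x; simp only [mem_filter, mem_Icc]; omega
  rw [this, Nat.card_Icc]
  simp

lemma card_PP_le {K n : ℕ} (hK : 1 ≤ K) : ((PP K n).card : ℝ) ≤ (n : ℝ) ^ 2 / (2 * K) := by
  rw [card_PP_eq]
  have hK0 : (0 : ℝ) < K := by exact_mod_cast hK
  have : ∀ D : ℕ, ∑ d ∈ range D, ((n - K * (d + 1) : ℕ) : ℝ) ≤
      (n : ℝ) ^ 2 / (2 * K) - (((n - K * D : ℕ) : ℝ)) ^ 2 / (2 * K) := by
    intro D
    induction D with
    | zero => simp
    | succ D ih =>
      rw [sum_range_succ]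
      have e : n - K * (D + 1) = (n - K * D) - K := by rw [Nat.mul_add, mul_one]; omega
      rw [e]
      set y := n - K * D
      rcases le_total K y with h | h
      · have : ((y - K : ℕ) : ℝ) = y - K := by rw [Nat.cast_sub h]
        rw [this]
        have h2 : (y : ℝ) - K ≤ (y : ℝ) ^ 2 / (2 * K) - ((y : ℝ) - K) ^ 2 / (2 * K) := by
          rw [← sub_div, le_div_iff₀ (by positivity)]
          nlinarith
        linarith
      · have : y - K = 0 := by omega
        rw [this]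
        have : (0 : ℝ) ≤ (y : ℝ) ^ 2 / (2 * K) := by positivity
        simp
        linarith
  have h := this n
  have h2 : (0 : ℝ) ≤ (((n - K * n : ℕ) : ℝ)) ^ 2 / (2 * K) := by positivity
  linarith

lemma card_PP_ge {K n : ℕ} (hK : 1 ≤ K) : (n : ℝ) ^ 2 / (2 * K) - n ≤ ((PP K n).card : ℝ) := by
  rw [card_PP_eq]
  have hK0 : (0 : ℝ) < K := by exact_mod_cast hK
  have : ∀ D : ℕ, (((n - K : ℕ) : ℝ)) ^ 2 / (2 * K) - (((n - K * (D + 1) : ℕ) : ℝ)) ^ 2 / (2 * K) ≤
      ∑ d ∈ range D, ((n - K * (d + 1) : ℕ) : ℝ) := by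
    intro D
    induction D with
    | zero => simp
    | succ D ih =>
      rw [sum_range_succ]
      have e : n - K * (D + 1 + 1) = (n - K * (D + 1)) - K := by
        rw [Nat.mul_add K (D + 1), mul_one]; omega
      rw [e]
      set y := n - K * (D + 1)
      rcases le_total K y with h | h
      · have : ((y - K : ℕ) : ℝ) = y - K := by rw [Nat.cast_sub h]
        rw [this]
        have h2 : (y : ℝ) ^ 2 / (2 * K) - ((y : ℝ) - K) ^ 2 / (2 * K) ≤ y := by
          rw [← sub_div, div_le_iff₀ (by positivity)]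
          nlinarith
        linarith
      · have h0 : y - K = 0 := by omega
        rw [h0]
        have hy : (y : ℝ) ≤ K := by exact_mod_cast h
        have h2 : (y : ℝ) ^ 2 / (2 * K) ≤ y := by
          rw [div_le_iff₀ (by positivity)]
          have : (0 : ℝ) ≤ y := by positivity
          nlinarith
        simp
        linarith
  have h := this n
  have h0 : n - K * (n + 1) = 0 := by
    have : 1 * (n + 1) ≤ K * (n + 1) := Nat.mul_le_mul_right _ hK
    omega
  rw [h0] at h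
  simp only [Nat.cast_zero, ne_eq, OfNat.ofNat_ne_zero, not_false_eq_true, zero_pow, zero_div,
    sub_zero] at h
  refine le_trans ?_ h
  rcases le_total K n with h1 | h1
  · rw [Nat.cast_sub h1, sub_le_iff_le_add, div_le_iff₀ (by positivity)]
    have : (((n : ℝ) - K) ^ 2 / (2 * K) + n) * (2 * K) = (n - K) ^ 2 + n * (2 * K) := by
      field_simp
    rw [this]
    nlinarith [sq_nonneg (K : ℝ)]
  · have h2 : n - K = 0 := by omega
    rw [h2]
    simp only [Nat.cast_zero, ne_eq, OfNat.ofNat_ne_zero, not_false_eq_true, zero_pow, zero_div]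
    have hn : (n : ℝ) ≤ K := by exact_mod_cast h1
    have : (n : ℝ) ^ 2 / (2 * K) ≤ n := by
      rw [div_le_iff₀ (by positivity)]
      have : (0 : ℝ) ≤ n := by positivity
      nlinarith
    linarith

end Pool.Agent.TH397.BR
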