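import Pool.Agent.TH397.BR3

set_option autoImplicit false

namespace Pool.Agent.TH397.BR

open Finset

lemma ff_abs (u1 u2 u3 m x : ℕ) : |ff u1 u2 u3 m x| ≤ 2 := by
  unfold ff
  split_ifs <;> norm_num

/-- The expected number of monochromatic progressions of the perturbed random colouring. -/
lemma expect {K n r : ℕ} (hK : 1 ≤ K) (hr : 2 ≤ r) (f : ℕ → ℝ) (hf : ∀ x, |f x| ≤ 2) (η : ℝ)
    (h0 : 0 ≤ η) (h1 : η ≤ 1 / 2) :
    ∃ χ : ℕ → Fin r,
      (((PP K n).filter (fun q : ℕ × ℕ => ∀ j < K + 1, χ (q.1 + j * q.2) = χ q.1)).card : ℝ) ≤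
      (r * (PP K n).card + η ^ 2 * ∑ p ∈ PP K n, ((∑ j ∈ range (K + 1), f (p.1 + j * p.2)) ^ 2
        - ∑ j ∈ range (K + 1), f (p.1 + j * p.2) ^ 2)
        + 2 * (4 ^ (K + 1) * (2 * η) ^ 3) * (PP K n).card) / (r : ℝ) ^ (K + 1) := by
  classical
  have hr0 : (0 : ℝ) < r := by exact_mod_cast (by omega : 0 < r)
  set c0 : Fin r := ⟨0, by omega⟩ with hc0
  set c1 : Fin r := ⟨1, by omega⟩ with hc1
  have hne : c0 ≠ c1 := by simp [hc0, hc1]
  set g : ℕ → Fin r → ℝ := fun x c => if c = c0 then f x else if c = c1 then -f x else 0 with hg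
  have hgabs : ∀ x c, |g x c| ≤ 2 := by
    intro x c
    simp only [hg]
    split_ifs
    · exact hf x
    · rw [abs_neg]; exact hf x
    · norm_num
  have hgsum : ∀ x, ∑ c, g x c = 0 := by
    intro x
    rw [sum_eq_add c0 c1 hne]
    · simp [hg, hne.symm]
    · intro c _ hc
      simp [hg, hc.1, hc.2]
    · intro h; exact absurd (mem_univ _) h
    · intro h; exact absurd (mem_univ _) h
  obtain ⟨χ, hχ⟩ := derand (K := K) (n := n) (r := r) (by omega) (fun x c => (1 + η * g x c) / r)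
    (by
      intro x c
      have := hgabs x c
      rw [abs_le] at this
      have : 0 ≤ 1 + η * g x c := by nlinarith
      positivity)
    (by
      intro x
      rw [← sum_div, sum_add_distrib, ← mul_sum, hgsum]
      simp only [sum_const, card_univ, Fintype.card_fin, nsmul_eq_mul, mul_one, mul_zero, add_zero]
      exact div_self hr0.ne') hK
  refine ⟨χ, hχ.trans ?_⟩
  rw [le_div_iff₀ (by positivity), sum_mul]
  have hterm : ∀ q ∈ PP K n, (∑ c, ∏ j ∈ range (K + 1), (1 + η * g (q.1 + j * q.2) c) / (r : ℝ)) *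
      (r : ℝ) ^ (K + 1) ≤ r + η ^ 2 * ((∑ j ∈ range (K + 1), f (q.1 + j * q.2)) ^ 2
        - ∑ j ∈ range (K + 1), f (q.1 + j * q.2) ^ 2) + 2 * (4 ^ (K + 1) * (2 * η) ^ 3) := by
    intro q _
    have e1 : (∑ c, ∏ j ∈ range (K + 1), (1 + η * g (q.1 + j * q.2) c) / (r : ℝ)) *
      (r : ℝ) ^ (K + 1) = ∑ c, ∏ j ∈ range (K + 1), (1 + η * g (q.1 + j * q.2) c) := by
      rw [sum_mul]
      refine sum_congr rfl fun c _ => ?_
      rw [prod_div_distrib, prod_const, card_range]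
      field_simp
    rw [e1]
    have e2 : ∑ c, ∏ j ∈ range (K + 1), (1 + η * g (q.1 + j * q.2) c) =
        r + ∑ c, (∏ j ∈ range (K + 1), (1 + η * g (q.1 + j * q.2) c) - 1) := by
      rw [sum_sub_distrib]; simp
    rw [e2, sum_eq_add c0 c1 hne]
    · have t1 := taylor (K + 1) (fun j => η * f (q.1 + j * q.2)) (2 * η) (by linarith) (by linarith)
        (fun j _ => by
          rw [abs_mul, abs_of_nonneg h0]
          nlinarith [hf (q.1 + j * q.2)])
      have t2 := taylor (K + 1) (fun j => -(η * f (q.1 + j * q.2))) (2 * η) (by linarith)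
        (by linarith)
        (fun j _ => by
          rw [abs_neg, abs_mul, abs_of_nonneg h0]
          nlinarith [hf (q.1 + j * q.2)])
      have t1' := (abs_le.1 t1).2
      have t2' := (abs_le.1 t2).2
      simp only [sum_neg_distrib, neg_sq, mul_pow, ← mul_sum] at t1' t2'
      have g0 : ∀ j, g (q.1 + j * q.2) c0 = f (q.1 + j * q.2) := by intro j; simp [hg]
      have g1 : ∀ j, g (q.1 + j * q.2) c1 = -f (q.1 + j * q.2) := by intro j; simp [hg, hne.symm]
      simp only [g0, g1, mul_neg]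
      simp only [mul_pow]
      linarith
    · intro c _ hc
      simp [hg, hc.1, hc.2]
    · intro h; exact absurd (mem_univ _) h
    · intro h; exact absurd (mem_univ _) h
  refine (sum_le_sum hterm).trans (le_of_eq ?_)
  rw [sum_add_distrib, sum_add_distrib, ← mul_sum, sum_const, sum_const]
  simp only [nsmul_eq_mul]
  ring

theorem low (K r : ℕ) (hK : 2 ≤ K) (hr : 2 ≤ r) :
    ∃ δ : ℝ, δ < 1 / (2 * K * (r : ℝ) ^ K) ∧ ∃ n0 : ℕ, ∀ n ≥ n0, ∃ χ : ℕ → Fin r,
      (((PP K n).filter (fun q : ℕ × ℕ => ∀ j < K + 1, χ (q.1 + j * q.2) = χ q.1)).card : ℝ) ≤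
        δ * (n : ℝ) ^ 2 := by
  obtain ⟨B, hB, hblk⟩ := blocks K hK
  have hB1 : (1 : ℝ) ≤ B := by exact_mod_cast hB
  have hr0 : (0 : ℝ) < r := by exact_mod_cast (by omega : 0 < r)
  have hK0 : (1 : ℝ) ≤ K := by exact_mod_cast (by omega : 1 ≤ K)
  obtain ⟨A, hA⟩ : ∃ A : ℝ, A = 16 * 4 ^ (K + 1) := ⟨_, rfl⟩
  have hA2 : 2 ≤ A := by
    rw [hA]
    have : (1 : ℝ) ≤ 4 ^ (K + 1) := one_le_pow₀ (by norm_num)
    linarith
  obtain ⟨η, hη⟩ : ∃ η : ℝ, η = 1 / (A * B ^ 2) := ⟨_, rfl⟩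
  have hAB : 2 ≤ A * (B : ℝ) ^ 2 := by nlinarith [sq_nonneg ((B : ℝ) - 1)]
  have hη0 : 0 < η := by rw [hη]; positivity
  have hη1 : η ≤ 1 / 2 := by
    rw [hη]; exact one_div_le_one_div_of_le (by norm_num) hAB
  have hηA : A * η * B ^ 2 = 1 := by rw [hη]; field_simp
  refine ⟨1 / (2 * K * (r : ℝ) ^ K) - η ^ 2 / (B ^ 2 * (r : ℝ) ^ (K + 1)), ?_, B, fun n hn => ?_⟩
  · have : 0 < η ^ 2 / (B ^ 2 * (r : ℝ) ^ (K + 1)) := by positivity
    linarith
  obtain ⟨u1, u2, u3, m, hnm, hQ⟩ := hblk n hn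
  obtain ⟨χ, hχ⟩ := expect (K := K) (n := n) (by omega) hr (ff u1 u2 u3 m) (ff_abs u1 u2 u3 m) η
    hη0.le hη1
  refine ⟨χ, hχ.trans ?_⟩
  have hN := card_PP_le (K := K) (n := n) (by omega)
  set N : ℝ := ((PP K n).card : ℝ) with hNdef
  have hN0 : 0 ≤ N := by positivity
  have hn0 : (0 : ℝ) ≤ n := by positivity
  have hm0 : (0 : ℝ) ≤ m := by positivity
  have hNn : N ≤ (n : ℝ) ^ 2 := by
    refine hN.trans ?_
    rw [div_le_iff₀ (by positivity)]
    nlinarith [sq_nonneg (n : ℝ)]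
  have hnm2 : (n : ℝ) ^ 2 ≤ B ^ 2 * m ^ 2 := by
    rw [← mul_pow]; exact pow_le_pow_left₀ hn0 hnm 2
  have h3 : 2 * (4 ^ (K + 1) * (2 * η) ^ 3) * N ≤ η ^ 2 * m ^ 2 := by
    calc 2 * (4 ^ (K + 1) * (2 * η) ^ 3) * N = A * η ^ 3 * N := by rw [hA]; ring
      _ ≤ A * η ^ 3 * (B ^ 2 * m ^ 2) := by
          apply mul_le_mul_of_nonneg_left (hNn.trans hnm2); positivity
      _ = (A * η * B ^ 2) * (η ^ 2 * m ^ 2) := by ring
      _ = η ^ 2 * m ^ 2 := by rw [hηA, one_mul]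
  have h4 : η ^ 2 * ∑ p ∈ PP K n, ((∑ j ∈ range (K + 1), ff u1 u2 u3 m (p.1 + j * p.2)) ^ 2
        - ∑ j ∈ range (K + 1), ff u1 u2 u3 m (p.1 + j * p.2) ^ 2) ≤ η ^ 2 * (-2 * m ^ 2) :=
    mul_le_mul_of_nonneg_left hQ (by positivity)
  have h5 : r * N ≤ r * ((n : ℝ) ^ 2 / (2 * K)) := mul_le_mul_of_nonneg_left hN hr0.le
  have h6 : η ^ 2 * n ^ 2 / B ^ 2 ≤ η ^ 2 * m ^ 2 := by
    rw [div_le_iff₀ (by positivity)]
    calc η ^ 2 * n ^ 2 ≤ η ^ 2 * (B ^ 2 * m ^ 2) := mul_le_mul_of_nonneg_left hnm2 (by positivity)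
      _ = η ^ 2 * m ^ 2 * B ^ 2 := by ring
  rw [div_le_iff₀ (by positivity)]
  have h7 : (1 / (2 * K * (r : ℝ) ^ K) - η ^ 2 / (B ^ 2 * (r : ℝ) ^ (K + 1))) * (n : ℝ) ^ 2 *
      (r : ℝ) ^ (K + 1) = r * ((n : ℝ) ^ 2 / (2 * K)) - η ^ 2 * n ^ 2 / B ^ 2 := by
    rw [pow_succ]
    field_simp
    ring
  rw [h7]
  linarith

/-- The progressions through a given point. -/
lemma through {K n x : ℕ} (hK : 1 ≤ K) :
    ((PP K n).filter (fun p : ℕ × ℕ => ∃ j < K + 1, p.1 + j * p.2 = x)).card ≤ (K + 1) * n := by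
  classical
  have : (PP K n).filter (fun p : ℕ × ℕ => ∃ j < K + 1, p.1 + j * p.2 = x) ⊆
      ((range (K + 1)) ×ˢ (Icc 1 n)).image (fun q : ℕ × ℕ => (x - q.1 * q.2, q.2)) := by
    intro p hp
    rw [mem_filter] at hp
    obtain ⟨hp1, j, hj, rfl⟩ := hp
    have hp' := (mem_PP hK).1 hp1
    rw [mem_image]
    have hle : 1 * p.2 ≤ K * p.2 := Nat.mul_le_mul_right _ hK
    refine ⟨(j, p.2), ?_, ?_⟩
    · rw [mem_product, mem_range, mem_Icc]; exact ⟨hj, hp'.2.1, by omega⟩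
    · simp
  refine (card_le_card this).trans (card_image_le.trans ?_)
  rw [card_product, card_range, Nat.card_Icc]
  simp

/-- Discrete continuity. -/
lemma ivt {K n r : ℕ} (hK : 1 ≤ K) (hr : 0 < r) (D : ℝ) (χ : ℕ → Fin r)
    (hχ : (((PP K n).filter (fun q : ℕ × ℕ => ∀ j < K + 1, χ (q.1 + j * q.2) = χ q.1)).card : ℝ) ≤ D)
    (hD : D ≤ (PP K n).card + n) :
    ∃ χ' : ℕ → Fin r,
      |(((PP K n).filter (fun q : ℕ × ℕ => ∀ j < K + 1, χ' (q.1 + j * q.2) = χ' q.1)).card : ℝ) - D| ≤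
        (K + 1) * n := by
  classical
  set F : (ℕ → Fin r) → ℝ := fun χ =>
    (((PP K n).filter (fun q : ℕ × ℕ => ∀ j < K + 1, χ (q.1 + j * q.2) = χ q.1)).card : ℝ) with hF
  set c0 : Fin r := ⟨0, hr⟩ with hc0
  set X : ℕ → ℕ → Fin r := fun t x => if x ≤ t then c0 else χ x with hX
  have hK' : (1 : ℝ) ≤ K := by exact_mod_cast hK
  have hn0 : (0 : ℝ) ≤ n := by positivity
  -- one step
  have hstep : ∀ t, F (X (t + 1)) ≤ F (X t) + (K + 1) * n := by
    intro t
    have hsub : (PP K n).filter (fun q : ℕ × ℕ => ∀ j < K + 1, X (t + 1) (q.1 + j * q.2) = X (t + 1) q.1) ⊆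
        (PP K n).filter (fun q : ℕ × ℕ => ∀ j < K + 1, X t (q.1 + j * q.2) = X t q.1) ∪
        (PP K n).filter (fun p : ℕ × ℕ => ∃ j < K + 1, p.1 + j * p.2 = t + 1) := by
      intro q hq
      rw [mem_filter] at hq
      rw [mem_union, mem_filter, mem_filter]
      by_cases h : ∃ j < K + 1, q.1 + j * q.2 = t + 1
      · right; exact ⟨hq.1, h⟩
      · left
        refine ⟨hq.1, fun j hj => ?_⟩
        push Not at h
        have e : ∀ j < K + 1, X (t + 1) (q.1 + j * q.2) = X t (q.1 + j * q.2) := by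
          intro j hj
          have := h j hj
          simp only [hX]
          by_cases h' : q.1 + j * q.2 ≤ t
          · rw [if_pos h', if_pos (by omega)]
          · rw [if_neg h', if_neg (by omega)]
        have e0 := e 0 (by omega)
        simp only [zero_mul, add_zero] at e0
        rw [← e j hj, ← e0]
        exact hq.2 j hj
    have h1 := (card_le_card hsub).trans (card_union_le _ _)
    have h2 := through (K := K) (n := n) (x := t + 1) hK
    have h3 : ((PP K n).filter (fun q : ℕ × ℕ => ∀ j < K + 1, X (t + 1) (q.1 + j * q.2) = X (t + 1) q.1)).card ≤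
        ((PP K n).filter (fun q : ℕ × ℕ => ∀ j < K + 1, X t (q.1 + j * q.2) = X t q.1)).card
          + (K + 1) * n := h1.trans (Nat.add_le_add_left h2 _)
    simp only [hF]
    exact_mod_cast h3
  have hX0 : F (X 0) ≤ D := by
    refine le_trans (le_of_eq ?_) hχ
    simp only [hF]
    congr 2
    apply filter_congr
    intro q hq
    have hq' := (mem_PP hK).1 hq
    have e : ∀ j, X 0 (q.1 + j * q.2) = χ (q.1 + j * q.2) := by
      intro j
      simp only [hX]
      rw [if_neg (by omega)]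
    have e0 := e 0
    simp only [zero_mul, add_zero] at e0
    simp only [e, e0]
  have hXn : F (X n) = (PP K n).card := by
    simp only [hF]
    congr 2
    rw [filter_eq_self]
    intro q hq j hj
    have hq' := (mem_PP hK).1 hq
    have hle : j * q.2 ≤ K * q.2 := Nat.mul_le_mul_right _ (by omega)
    simp only [hX]
    rw [if_pos (by omega), if_pos (by omega)]
  -- first time the count reaches `D - n`
  have hex : ∃ t, D - n ≤ F (X t) := ⟨n, by rw [hXn]; linarith⟩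
  obtain ⟨t, ht, hmin⟩ : ∃ t, D - n ≤ F (X t) ∧ ∀ s < t, F (X s) < D - n := by
    refine ⟨Nat.find hex, Nat.find_spec hex, fun s hs => ?_⟩
    have := Nat.find_min hex hs
    rwa [not_le] at this
  refine ⟨X t, ?_⟩
  change |F (X t) - D| ≤ _
  rw [abs_le]
  constructor
  · nlinarith
  · rcases Nat.eq_zero_or_pos t with h | h
    · subst h
      nlinarith
    · obtain ⟨s, rfl⟩ : ∃ s, t = s + 1 := ⟨t - 1, by omega⟩
      have h1 := hmin s (by omega)
      have h2 := hstep s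
      linarith

end Pool.Agent.TH397.BR
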