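import Pool.Agent.TH397.EX1

set_option autoImplicit false

namespace Pool.Agent.TH397.EX

/-- For every colouring of the exponents there are a set `A` of exponents of one colour and,
for every `k`, an element `x ≥ k` of `A` with `2^e x ∈ A` for all `e ∈ A`, `e < k`. -/
theorem exists_set {r : ℕ} (c : ℕ → Fin r) :
    ∃ (v : Fin r) (A : Set ℕ), (∀ e ∈ A, c e = v) ∧
      ∀ k : ℕ, ∃ x, k ≤ x ∧ x ∈ A ∧ ∀ e ∈ A, e < k → 2 ^ e * x ∈ A := by
  obtain ⟨Y, hY, hmin⟩ := exists_minimal c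
  obtain ⟨ζ00, h00⟩ := hY.ne
  -- one step
  have step : ∀ (k : ℕ) (s : {ζ : ℕ → Fin r // ζ ∈ Y} × ℕ),
      ∃ (s' : {ζ : ℕ → Fin r // ζ ∈ Y} × ℕ) (x : ℕ), k + 1 ≤ x ∧
        (∀ b < s.2 + k + 1, s'.1.1 b = s.1.1 b) ∧ Close c x s.1.1 (s.2 + k + 1) ∧
        (∀ b < k + 1, s'.1.1 (2 ^ b * x) = s.1.1 0) ∧
        s'.2 = s.2 + k + 1 + 2 ^ (k + 1) * x := by
    intro k s
    obtain ⟨ζ', h', x, h1, h2, h3, h4⟩ :=
      keyLemma hY hmin s.1.2 (n := s.2 + k + 1) (by omega) (k + 1)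
    exact ⟨(⟨ζ', h'⟩, s.2 + k + 1 + 2 ^ (k + 1) * x), x, h1, h2, h3, h4, rfl⟩
  choose nxt xx hx1 hx2 hx3 hx4 hx5 using step
  let st : ℕ → {ζ : ℕ → Fin r // ζ ∈ Y} × ℕ := fun k =>
    Nat.rec (motive := fun _ => {ζ : ℕ → Fin r // ζ ∈ Y} × ℕ) (⟨ζ00, h00⟩, 0)
      (fun k s => nxt k s) k
  have hst : ∀ k, st (k + 1) = nxt k (st k) := fun k => rfl
  let x : ℕ → ℕ := fun k => xx k (st k)
  let N : ℕ → ℕ := fun k => (st k).2
  let Z : ℕ → ℕ → Fin r := fun k => (st k).1.1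
  have a1 : ∀ k, k + 1 ≤ x k := fun k => hx1 k (st k)
  have a2 : ∀ k, ∀ b < N k + k + 1, Z (k + 1) b = Z k b := fun k => hx2 k (st k)
  have a3 : ∀ k, Close c (x k) (Z k) (N k + k + 1) := fun k => hx3 k (st k)
  have a4 : ∀ k, ∀ b < k + 1, Z (k + 1) (2 ^ b * x k) = Z k 0 := fun k => hx4 k (st k)
  have a5 : ∀ k, N (k + 1) = N k + k + 1 + 2 ^ (k + 1) * x k := fun k => hx5 k (st k)
  have Nmono : Monotone N := monotone_nat_of_le_succ (fun k => by rw [a5]; omega)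
  -- stability
  have stab : ∀ k b, b < N k + k + 1 → ∀ j, k ≤ j → Z j b = Z k b := by
    intro k b hb j hj
    induction j, hj using Nat.le_induction with
    | base => rfl
    | succ j hj ih =>
      rw [a2 j b (by have := Nmono hj; omega), ih]
  let z : ℕ → Fin r := fun b => Z b b
  have hz : ∀ k b, b < N k + k + 1 → z b = Z k b := by
    intro k b hb
    rcases le_total k b with h | h
    · exact stab k b hb b h
    · exact (stab b b (by omega) k h).symm
  have hZ0 : ∀ k, Z k 0 = z 0 := fun k => (hz k 0 (by omega)).symm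
  refine ⟨z 0, {e | c e = z 0 ∧ z e = z 0}, fun e he => he.1, ?_⟩
  have b1 : ∀ k, ∀ b < k + 1, z (2 ^ b * x k) = z 0 := by
    intro k b hb
    have hle : 2 ^ b ≤ 2 ^ (k + 1) := Nat.pow_le_pow_right (by norm_num) (by omega)
    have hle2 : 2 ^ b * x k ≤ 2 ^ (k + 1) * x k := Nat.mul_le_mul_right _ hle
    rw [hz (k + 1) _ (by rw [a5]; omega), a4 k b hb, hZ0]
  have b2 : ∀ k, ∀ b < k + 1, c (2 ^ b * x k) = z b := by
    intro k b hb
    rw [a3 k b (by omega), hz k b (by omega)]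
  intro k
  refine ⟨x k, by have := a1 k; omega, ⟨?_, ?_⟩, ?_⟩
  · simpa using b2 k 0 (by omega)
  · simpa using b1 k 0 (by omega)
  · intro e he hek
    exact ⟨by rw [b2 k e (by omega)]; exact he.2, b1 k e (by omega)⟩

/-- The sets `FE^II_n` of a sequence. -/
def feII (x : ℕ → ℕ) : ℕ → Set ℕ
  | 0 => {x 0}
  | n + 1 => {z | ∃ y ∈ feII x n, z = x (n + 1) ^ y} ∪ feII x n ∪ {x (n + 1)}

/-- The sets `FE^I_n` of a sequence. -/
def feI (x : ℕ → ℕ) : ℕ → Set ℕ
  | 0 => {x 0}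
  | n + 1 => {z | ∃ y ∈ feI x n, z = y ^ x (n + 1)} ∪ feI x n ∪ {x (n + 1)}

/-- Type II exponential IP sets are partition regular. -/
theorem typeII {r : ℕ} (col : ℕ → Fin r) :
    ∃ (v : Fin r) (x : ℕ → ℕ), StrictMono x ∧ ∀ n, ∀ z ∈ feII x n, col z = v := by
  obtain ⟨v, A, hA, hx⟩ := exists_set (fun e => col (2 ^ e))
  choose y hy1 hy2 hy3 using hx
  -- pairs (a_n, M_n)
  let st : ℕ → ℕ × ℕ := fun n =>
    Nat.rec (motive := fun _ => ℕ × ℕ) (y 0, y 0)
      (fun _ s => (y (s.2 + 1), 2 ^ s.2 * y (s.2 + 1))) n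
  let a : ℕ → ℕ := fun n => (st n).1
  let M : ℕ → ℕ := fun n => (st n).2
  have ha : ∀ n, a (n + 1) = y (M n + 1) := fun n => rfl
  have hM : ∀ n, M (n + 1) = 2 ^ M n * y (M n + 1) := fun n => rfl
  have haM : ∀ n, a n ≤ M n := by
    intro n
    cases n with
    | zero => exact le_refl _
    | succ n =>
      rw [ha, hM]
      exact Nat.le_mul_of_pos_left _ (by positivity)
  have hmono : StrictMono a := by
    refine strictMono_nat_of_lt_succ (fun n => ?_)
    rw [ha]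
    have := hy1 (M n + 1)
    have := haM n
    omega
  have hMM : ∀ n, M n ≤ M (n + 1) := by
    intro n
    rw [hM]
    have h1 := hy1 (M n + 1)
    have h2 : y (M n + 1) ≤ 2 ^ M n * y (M n + 1) := Nat.le_mul_of_pos_left _ (by positivity)
    omega
  refine ⟨v, fun n => 2 ^ a n, fun i j hij => Nat.pow_lt_pow_right (by norm_num) (hmono hij), ?_⟩
  have key : ∀ n, ∀ z ∈ feII (fun n => 2 ^ a n) n, ∃ e ∈ A, e ≤ M n ∧ z = 2 ^ e := by
    intro n
    induction n with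
    | zero =>
      intro z hz
      rw [feII, Set.mem_singleton_iff] at hz
      exact ⟨a 0, hy2 0, haM 0, hz⟩
    | succ n ih =>
      intro z hz
      rw [feII] at hz
      rcases hz with (⟨w, hw, rfl⟩ | hz) | hz
      · obtain ⟨e, he, heM, rfl⟩ := ih w hw
        refine ⟨2 ^ e * a (n + 1), ?_, ?_, ?_⟩
        · rw [ha]
          exact hy3 (M n + 1) e he (by omega)
        · rw [ha, hM]
          exact Nat.mul_le_mul_right _ (Nat.pow_le_pow_right (by norm_num) heM)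
        · rw [← pow_mul, mul_comm]
      · obtain ⟨e, he, heM, rfl⟩ := ih z hz
        exact ⟨e, he, heM.trans (hMM n), rfl⟩
      · rw [Set.mem_singleton_iff] at hz
        refine ⟨a (n + 1), ?_, haM (n + 1), hz⟩
        rw [ha]
        exact hy2 _
  intro n z hz
  obtain ⟨e, he, _, rfl⟩ := key n z hz
  exact hA e he

/-! ### Type I -/

/-- The towers `1, 2, 4, 16, …` -/
def tow : ℕ → ℕ
  | 0 => 1
  | k + 1 => 2 ^ tow k

lemma tow_lt (k : ℕ) : tow k < tow (k + 1) := Nat.lt_two_pow_self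

lemma tow_strictMono : StrictMono tow := strictMono_nat_of_lt_succ tow_lt

lemma lt_tow (k : ℕ) : k < tow k := by
  induction k with
  | zero => simp [tow]
  | succ k ih => have := tow_lt k; omega

/-- number of towers that are at most `n` -/
def lev (n : ℕ) : ℕ := Nat.findGreatest (fun k => k = 0 ∨ tow (k - 1) ≤ n) n

lemma lev_spec (n : ℕ) : n < tow (lev n) ∧ (lev n = 0 ∨ tow (lev n - 1) ≤ n) := by
  have h0 : (fun k => k = 0 ∨ tow (k - 1) ≤ n) (lev n) :=
    Nat.findGreatest_spec (P := fun k => k = 0 ∨ tow (k - 1) ≤ n) (Nat.zero_le n) (Or.inl rfl)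
  refine ⟨?_, h0⟩
  by_contra h
  push Not at h
  have h1 : lev n < n := lt_of_lt_of_le (lt_tow _) h
  have := Nat.findGreatest_is_greatest (P := fun k => k = 0 ∨ tow (k - 1) ≤ n)
    (n := n) (k := lev n + 1) (Nat.lt_succ_self _) (by omega)
  apply this
  right
  simpa using h

lemma lev_eq {n k : ℕ} (h1 : tow k ≤ n) (h2 : n < tow (k + 1)) : lev n = k + 1 := by
  obtain ⟨h3, h4⟩ := lev_spec n
  have h5 : k < lev n := tow_strictMono.lt_iff_lt.mp (lt_of_le_of_lt h1 h3)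
  rcases h4 with h4 | h4
  · omega
  · have : lev n - 1 < k + 1 := tow_strictMono.lt_iff_lt.mp (lt_of_le_of_lt h4 h2)
    omega

lemma tow_sq (k : ℕ) : tow (k + 1) ^ 2 ≤ tow (k + 2) := by
  have h : ∀ k, 2 * tow k ≤ tow (k + 1) := by
    intro k
    induction k with
    | zero => simp [tow]
    | succ k ih =>
      show 2 * 2 ^ tow k ≤ 2 ^ tow (k + 1)
      rw [← pow_succ']
      exact Nat.pow_le_pow_right (by norm_num) (tow_lt k)
  show (2 ^ tow k) ^ 2 ≤ 2 ^ tow (k + 1)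
  rw [← pow_mul, mul_comm]
  exact Nat.pow_le_pow_right (by norm_num) (h k)

lemma lev_pow {x y : ℕ} (hx : 2 ≤ x) (hxy : x < y) :
    lev (x ^ y) = lev y + 1 ∨ lev (x ^ y) = lev y + 2 := by
  obtain ⟨h1, h2⟩ := lev_spec y
  have hpos : lev y ≠ 0 := by
    intro h
    rw [h] at h1
    simp [tow] at h1
    omega
  obtain ⟨k, hk⟩ := Nat.exists_eq_succ_of_ne_zero hpos
  have hk' : lev y = k + 1 := hk
  rw [hk'] at h1 h2 ⊢
  have h3 : tow k ≤ y := by
    rcases h2 with h2 | h2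
    · omega
    · simpa using h2
  have hlow : tow (k + 1) ≤ x ^ y := by
    calc tow (k + 1) = 2 ^ tow k := rfl
      _ ≤ 2 ^ y := Nat.pow_le_pow_right (by norm_num) h3
      _ ≤ x ^ y := Nat.pow_le_pow_left hx y
  have hup : x ^ y < tow (k + 3) := by
    have h5 : x ≤ 2 ^ y := (hxy.le).trans (Nat.lt_two_pow_self).le
    have h6 : y ^ 2 < tow (k + 2) := by
      calc y ^ 2 < tow (k + 1) ^ 2 := Nat.pow_lt_pow_left h1 (by norm_num)
        _ ≤ tow (k + 2) := tow_sq k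
    calc x ^ y ≤ (2 ^ y) ^ y := Nat.pow_le_pow_left h5 y
      _ = 2 ^ (y ^ 2) := by rw [← pow_mul, sq]
      _ < 2 ^ tow (k + 2) := Nat.pow_lt_pow_right (by norm_num) h6
  rcases lt_or_ge (x ^ y) (tow (k + 2)) with h | h
  · left
    exact lev_eq hlow h
  · right
    exact lev_eq h hup

lemma mod_ne {r a d : ℕ} (h0 : d ≠ 0) (hd : d < r) : a % r ≠ (a + d) % r := by
  intro h
  have h1 : (a + d) ≡ a [MOD r] := h.symm
  have h2 : d ≡ 0 [MOD r] := by
    have h3 : a + d ≡ a + 0 [MOD r] := h1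
    exact Nat.ModEq.add_left_cancel' a h3
  have h3 : r ∣ d := (Nat.modEq_zero_iff_dvd).mp h2
  exact h0 (Nat.eq_zero_of_dvd_of_lt h3 hd)

/-- At least three colours defeat type I. -/
theorem typeI_neg {r : ℕ} (hr : 3 ≤ r) (x : ℕ → ℕ) (hx : StrictMono x) :
    ∃ i j : ℕ, ∃ z ∈ feI x i, ∃ w ∈ feI x j, lev z % r ≠ lev w % r := by
  have hge : ∀ n, n ≤ x n := hx.id_le
  have hmem : ∀ n, x n ∈ feI x n := by
    intro n
    cases n with
    | zero => exact rfl
    | succ n => exact Or.inr rfl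
  refine ⟨3, 3, x 3, hmem 3, x 2 ^ x 3, ?_, ?_⟩
  · exact Or.inl (Or.inl ⟨x 2, hmem 2, rfl⟩)
  · rcases lev_pow (hge 2) (hx (by norm_num : 2 < 3)) with h | h
    · rw [h]; exact mod_ne (by norm_num) (by omega)
    · rw [h]; exact mod_ne (by norm_num) (by omega)

lemma lev_zero : lev 0 = 0 := by
  simp [lev]

lemma lev_one : lev 1 = 1 := lev_eq (k := 0) (by simp [tow]) (by simp [tow])

lemma lev_two : lev 2 = 2 := lev_eq (k := 1) (by simp [tow]) (by simp [tow])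

end Pool.Agent.TH397.EX
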